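import Pool.Agent.Work.MP_f473e4_nt.SBrun

set_option autoImplicit false

open Finset

namespace Pool.Agent.Work.MP_8efaaa_nt

open Pool.Agent.Work.MP_f473e4_nt

/-- Brun-Hooley sieve, uniform in the sifting sets and for every length `M`. -/
theorem bh (k c : ℕ) (hk : 1 ≤ k) (hc1 : 1 ≤ c) (hc : 160 * k + 8 ≤ 2 ^ (c - 1)) :
    ∃ J₀ : ℕ, ∀ J ≥ J₀, ∀ M : ℕ, 2 ^ (2 ^ (J + c)) ≤ M → ∀ (P : ℕ → Finset ℕ)
    (_ : ∀ j, 1 ≤ j → ∀ p ∈ P j, p.Prime ∧ 2 ^ (2 ^ (j - 1)) < p ∧ p ≤ 2 ^ (2 ^ j) ∧ 2 * k ≤ p)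
    (A : ℕ → Finset ℕ) (_ : ∀ p, A p ⊆ range p) (_ : ∀ p, (A p).card ≤ k),
    ∃ Y : ℝ, (1 / 4 : ℝ) ^ (4 * k * J) ≤ Y ∧
      Y / 2 * (M : ℝ) ≤
        (((range M).filter
          (fun m => ∀ j ∈ Icc 1 J, ∀ p ∈ P j, m % p ∉ A p)).card : ℝ) ∧
      ∀ q a : ℕ, q.Prime → (∀ j ∈ Icc 1 J, q ∉ P j) → q * 2 ^ (2 ^ (J + c - 1)) ≤ M → a < q →
        (((range M).filter
          (fun m => m % q = a ∧ ∀ j ∈ Icc 1 J, ∀ p ∈ P j, m % p ∉ A p)).card : ℝ)
          ≤ 2 * Y / q * (M : ℝ) := by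
  obtain ⟨J₀, hJ₀⟩ := final_exp k c hc hc1
  refine ⟨J₀, fun J hJ M hM P hP A hA hAk => ?_⟩
  have hfin := hJ₀ J hJ
  have hMge : (2 : ℝ) ^ (2 ^ (J + c)) ≤ (M : ℝ) := by exact_mod_cast hM
  have hMpos : (0 : ℝ) < M := lt_of_lt_of_le (by positivity) hMge
  set Yj : ℕ → ℝ := fun j => mloc P A (cc k J) j with hYj
  have hYge : ∀ j ∈ Icc 1 J, (1 / 4 : ℝ) ^ (4 * k) ≤ Yj j := fun j hj =>
    Y_ge k j (P j) A (mem_Icc.1 hj).1 (hP j (mem_Icc.1 hj).1) hAk (40 * k + (J - j))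
  have hYpos : ∀ j ∈ Icc 1 J, 0 < Yj j := fun j hj => lt_of_lt_of_le (by positivity) (hYge j hj)
  set Y : ℝ := ∏ j ∈ Icc 1 J, Yj j with hY
  have hY0 : 0 < Y := prod_pos hYpos
  have hY1 : (1 / 4 : ℝ) ^ (4 * k * J) ≤ Y := by
    have h1 : ∏ _j ∈ Icc 1 J, (1 / 4 : ℝ) ^ (4 * k) ≤ Y :=
      prod_le_prod (fun j _ => by positivity) hYge
    rw [prod_const, Nat.card_Icc, Nat.add_sub_cancel, ← pow_mul] at h1
    exact h1
  set Err : ℝ := (2 : ℝ) ^ (eexp k J) with hErr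
  have hErr0 : 0 < Err := by positivity
  -- the error is small
  have hsmall : 4 * ((J : ℝ) + 1) * Err ≤ (2 : ℝ) ^ (2 ^ (J + c - 1)) * Y := by
    have h1 : ((J : ℝ) + 1) ≤ 2 ^ J := by
      have := (Nat.lt_two_pow_self (n := J))
      exact_mod_cast this
    have h2 : (2 : ℝ) ^ (2 + J + 8 * k * J + eexp k J) ≤ (2 : ℝ) ^ (2 ^ (J + c - 1)) :=
      pow_le_pow_right₀ (by norm_num) hfin
    have h3 : (2 : ℝ) ^ (2 + J + 8 * k * J + eexp k J) = 4 * 2 ^ J * 2 ^ (8 * k * J) * Err := by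
      rw [hErr, pow_add, pow_add, pow_add]
      norm_num
    have h4 : (2 : ℝ) ^ (8 * k * J) * (1 / 4 : ℝ) ^ (4 * k * J) = 1 := by
      rw [show (1 / 4 : ℝ) = (1 / 2) ^ 2 by norm_num, ← pow_mul,
        show 2 * (4 * k * J) = 8 * k * J by ring, ← mul_pow]
      norm_num
    have h5 : 1 ≤ (2 : ℝ) ^ (8 * k * J) * Y := by
      rw [← h4]
      exact mul_le_mul_of_nonneg_left hY1 (by positivity)
    have h6 : 0 < (2 : ℝ) ^ (2 ^ (J + c - 1)) := by positivity
    calc 4 * ((J : ℝ) + 1) * Err ≤ 4 * 2 ^ J * Err := by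
          refine mul_le_mul_of_nonneg_right ?_ hErr0.le
          linarith
      _ ≤ 4 * 2 ^ J * Err * ((2 : ℝ) ^ (8 * k * J) * Y) := by
          refine le_mul_of_one_le_right (by positivity) h5
      _ = (4 * 2 ^ J * 2 ^ (8 * k * J) * Err) * Y := by ring
      _ ≤ (2 : ℝ) ^ (2 ^ (J + c - 1)) * Y := by
          rw [← h3]
          exact mul_le_mul_of_nonneg_right h2 hY0.le
  refine ⟨Y, hY1, ?_, ?_⟩
  · -- lower bound
    have hc0 := count_eq P A J M 1 0
    have hf : (range M).filter (fun m => m % 1 = 0) = range M := by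
      ext m
      simp [Nat.mod_one]
    have hf2 : (range M).filter (fun m => m % 1 = 0 ∧ ∀ j ∈ Icc 1 J, ∀ p ∈ P j, m % p ∉ A p)
        = (range M).filter (fun m => ∀ j ∈ Icc 1 J, ∀ p ∈ P j, m % p ∉ A p) := by
      ext m
      simp [Nat.mod_one]
    rw [hf2] at hc0
    rw [hc0]
    have hy := avg_loc k P A J hk hP hA hAk M 1 0 one_pos one_pos (fun j _ p _ => Nat.coprime_one_left p)
      (cc k J) (cc_le k J)
    have he : ∀ i ∈ Icc 1 J, ∑ m ∈ (range M).filter (fun m => m % 1 = 0),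
        loc P A (ee k J) i m * ∏ j ∈ (Icc 1 J).erase i, loc P A (cc k J) j m
        ≤ M * ((1 / 16 : ℝ) ^ (J - i + 1) * Y) + Err := by
      intro i hi
      set ci : ℕ → Finset ℕ → ℝ := fun j S => if j = i then ee k J j S else cc k J j S with hci
      have hcile : ∀ j S, |ci j S| ≤ if S.card ≤ 2 * (40 * k + (J - j)) + 1 then 1 else 0 := by
        intro j S
        rw [hci]
        dsimp only
        by_cases h : j = i
        · rw [if_pos h]
          exact ee_le k J j S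
        · rw [if_neg h]
          exact cc_le k J j S
      have h1 := avg_loc k P A J hk hP hA hAk M 1 0 one_pos one_pos
        (fun j _ p _ => Nat.coprime_one_left p) ci hcile
      have h2 : ∀ m, ∏ j ∈ Icc 1 J, loc P A ci j m
          = loc P A (ee k J) i m * ∏ j ∈ (Icc 1 J).erase i, loc P A (cc k J) j m := by
        intro m
        rw [← mul_prod_erase _ _ hi]
        congr 1
        · unfold loc
          simp only [hci, if_true]
        · refine prod_congr rfl fun j hj => ?_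
          have hji : j ≠ i := (mem_erase.1 hj).1
          unfold loc
          simp only [hci, if_neg hji]
      have h3 : ∏ j ∈ Icc 1 J, mloc P A ci j
          = mloc P A (ee k J) i * ∏ j ∈ (Icc 1 J).erase i, Yj j := by
        rw [← mul_prod_erase _ _ hi]
        congr 1
        · unfold mloc
          simp only [hci, if_true]
        · refine prod_congr rfl fun j hj => ?_
          have hji : j ≠ i := (mem_erase.1 hj).1
          simp only [hYj, mloc, hci, if_neg hji]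
      rw [sum_congr rfl (fun m _ => h2 m), h3] at h1
      have h4 : mloc P A (ee k J) i ≤ (1 / 4 : ℝ) ^ (4 * k) * (1 / 16) ^ (J - i + 1) :=
        E_le k i (P i) A (mem_Icc.1 hi).1 (hP i (mem_Icc.1 hi).1) hAk (J - i)
      have h5 : mloc P A (ee k J) i ≤ (1 / 16) ^ (J - i + 1) * Yj i := by
        refine h4.trans ?_
        rw [mul_comm]
        exact mul_le_mul_of_nonneg_left (hYge i hi) (by positivity)
      have h6 : 0 ≤ ∏ j ∈ (Icc 1 J).erase i, Yj j :=
        prod_nonneg fun j hj => (hYpos j (mem_of_mem_erase hj)).le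
      have h7 : mloc P A (ee k J) i * ∏ j ∈ (Icc 1 J).erase i, Yj j ≤ (1 / 16) ^ (J - i + 1) * Y := by
        calc mloc P A (ee k J) i * ∏ j ∈ (Icc 1 J).erase i, Yj j
            ≤ (1 / 16) ^ (J - i + 1) * Yj i * ∏ j ∈ (Icc 1 J).erase i, Yj j :=
              mul_le_mul_of_nonneg_right h5 h6
          _ = (1 / 16) ^ (J - i + 1) * Y := by
              rw [mul_assoc, mul_prod_erase _ _ hi]
      have h8 := (abs_le.1 h1).2
      have h9 : (M : ℝ) / (1 : ℕ) * (mloc P A (ee k J) i * ∏ j ∈ (Icc 1 J).erase i, Yj j)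
          ≤ M * ((1 / 16 : ℝ) ^ (J - i + 1) * Y) := by
        rw [Nat.cast_one, div_one]
        exact mul_le_mul_of_nonneg_left h7 (by positivity)
      linarith
    have hh : ∀ m, ∏ j ∈ Icc 1 J, loc P A (cc k J) j m
        - ∑ i ∈ Icc 1 J, loc P A (ee k J) i m * ∏ j ∈ (Icc 1 J).erase i, loc P A (cc k J) j m
        ≤ ∏ j ∈ Icc 1 J, xx P A j m := fun m =>
      hooley (Icc 1 J) (fun j => xx P A j m) (fun j => loc P A (cc k J) j m)
        (fun j => loc P A (ee k J) j m) (fun j _ => xx_nonneg P A j m) (fun j _ => xx_le k P A J j m)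
        (fun j _ => yy_sub k P A J j m)
    have hsum : ∑ m ∈ (range M).filter (fun m => m % 1 = 0), ∏ j ∈ Icc 1 J, loc P A (cc k J) j m
        - ∑ i ∈ Icc 1 J, ∑ m ∈ (range M).filter (fun m => m % 1 = 0),
            loc P A (ee k J) i m * ∏ j ∈ (Icc 1 J).erase i, loc P A (cc k J) j m
        ≤ ∑ m ∈ (range M).filter (fun m => m % 1 = 0), ∏ j ∈ Icc 1 J, xx P A j m := by
      rw [sum_comm, ← sum_sub_distrib]
      exact sum_le_sum fun m _ => hh m
    have hsumE : ∑ i ∈ Icc 1 J, ∑ m ∈ (range M).filter (fun m => m % 1 = 0),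
            loc P A (ee k J) i m * ∏ j ∈ (Icc 1 J).erase i, loc P A (cc k J) j m
        ≤ M * (1 / 15 * Y) + J * Err := by
      refine (sum_le_sum he).trans ?_
      rw [sum_add_distrib, sum_const, Nat.card_Icc, Nat.add_sub_cancel, nsmul_eq_mul, ← mul_sum,
        ← sum_mul]
      have := geom_small J
      have h1 : (∑ j ∈ Icc 1 J, (1 / 16 : ℝ) ^ (J - j + 1)) * Y ≤ 1 / 15 * Y :=
        mul_le_mul_of_nonneg_right this hY0.le
      have h2 : (M : ℝ) * ((∑ j ∈ Icc 1 J, (1 / 16 : ℝ) ^ (J - j + 1)) * Y) ≤ M * (1 / 15 * Y) :=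
        mul_le_mul_of_nonneg_left h1 (by positivity)
      linarith
    have hy1 := (abs_le.1 hy).1
    rw [Nat.cast_one, div_one] at hy1
    have hMY : (2 : ℝ) ^ (2 ^ (J + c - 1)) * Y ≤ M * Y := by
      refine mul_le_mul_of_nonneg_right (le_trans ?_ hMge) hY0.le
      exact pow_le_pow_right₀ (by norm_num) (Nat.pow_le_pow_right (by norm_num) (by omega))
    have hMY0 : 0 < (M : ℝ) * Y := mul_pos hMpos hY0
    have hE4 : 4 * (((J : ℝ) + 1) * Err) ≤ M * Y := by
      have := hsmall.trans hMY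
      linarith
    have hyy : (M : ℝ) * ∏ j ∈ Icc 1 J, mloc P A (cc k J) j = M * Y := rfl
    rw [hyy] at hy1
    nlinarith
  · -- upper bound
    intro q a hq hqP hqle ha
    rw [count_eq P A J M q a]
    have hy := avg_loc k P A J hk hP hA hAk M q a hq.pos ha (fun j hj p hp => by
      rw [Nat.coprime_primes hq (hP j (mem_Icc.1 hj).1 p hp).1]
      rintro rfl
      exact hqP j hj hp) (cc k J) (cc_le k J)
    have h1 : ∑ m ∈ (range M).filter (fun m => m % q = a), ∏ j ∈ Icc 1 J, xx P A j m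
        ≤ ∑ m ∈ (range M).filter (fun m => m % q = a), ∏ j ∈ Icc 1 J, loc P A (cc k J) j m :=
      sum_le_sum fun m _ => prod_le_prod (fun j _ => xx_nonneg P A j m) fun j _ => xx_le k P A J j m
    have h2 := (abs_le.1 hy).2
    have hyy : (M : ℝ) / q * ∏ j ∈ Icc 1 J, mloc P A (cc k J) j = M / q * Y := rfl
    rw [hyy] at h2
    have hq0 : (0 : ℝ) < q := by exact_mod_cast hq.pos
    have h3 : (2 : ℝ) ^ (2 ^ (J + c - 1)) ≤ M / q := by
      rw [le_div_iff₀ hq0, mul_comm]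
      exact_mod_cast hqle
    have h5 : (2 : ℝ) ^ (2 ^ (J + c - 1)) * Y ≤ M / q * Y := mul_le_mul_of_nonneg_right h3 hY0.le
    have h6 : Err ≤ 4 * ((J : ℝ) + 1) * Err := by
      have hJ0 : (0 : ℝ) ≤ J := by positivity
      nlinarith
    have h7 : 2 * Y / q * (M : ℝ) = M / q * Y + M / q * Y := by
      ring
    rw [h7]
    linarith

end Pool.Agent.Work.MP_8efaaa_nt
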