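import Pool.Agent.Work.MP_8efaaa_nt.APMain

set_option autoImplicit false

namespace Pool.Agent.Work.MP_8efaaa_nt

/-- The family of helper18 with sizes: three linear forms attached to a residue class. -/
theorem family (M r : ℕ) (hM : 0 < M) (hg : Squarefree (Nat.gcd r M)) :
    ∃ α γ : Fin 3 → ℕ, (∀ v, 0 < α v) ∧ (∀ v, Nat.Coprime (α v) (γ v)) ∧
      (∀ v v' p, p.Prime → p ∣ α v → p ∣ α v') ∧
      (∀ v p, p.Prime → p ≤ 2 ^ 3 → p ∣ α v) ∧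
      (∀ v, α v ≤ (210 * M) ^ 4) ∧ (∀ v, γ v ≤ 2 * α v) ∧
      Nat.gcd r M * (α 0 * α 1 * α 2) ≤ (210 * M) ^ 10 ∧
      ∀ t : ℕ, (∀ v, Squarefree (α v * t + γ v)) →
        Squarefree (Nat.gcd r M * ((α 0 * t + γ 0) * (α 1 * t + γ 1) * (α 2 * t + γ 2))) ∧
        Nat.gcd r M * ((α 0 * t + γ 0) * (α 1 * t + γ 1) * (α 2 * t + γ 2)) ≡ r [MOD M] ∧
        IsCongruent
          (Nat.gcd r M * ((α 0 * t + γ 0) * (α 1 * t + γ 1) * (α 2 * t + γ 2))) := by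
  have hm0 : 0 < Nat.gcd r M := Nat.gcd_pos_of_pos_right _ hM
  have hmM : Nat.gcd r M ∣ M := Nat.gcd_dvd_right r M
  set m := Nat.gcd r M with hm
  set M' := M * 210 with hM'
  have hM'0 : 0 < M' := Nat.mul_pos hM (by norm_num)
  have hM'2 : 210 * M = M' := Nat.mul_comm _ _
  obtain ⟨β, hβ, hβr⟩ := unit_lift M r M' hM hM'0 (Dvd.intro _ rfl)
  obtain ⟨Q, R, hQR, hQc, hR⟩ := split_coprime (2 * m) (by omega) M' hM'0
  have hQ0 : 0 < Q := by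
    rcases Nat.eq_zero_or_pos Q with h | h
    · rw [h, zero_mul] at hQR; omega
    · exact h
  have hR0 : 0 < R := by
    rcases Nat.eq_zero_or_pos R with h | h
    · rw [h, mul_zero] at hQR; omega
    · exact h
  have hsmall : ∀ p, p.Prime → p ≤ 8 → p ∣ M' := fun p hp h => by
    refine Dvd.dvd.mul_left ?_ M
    interval_cases p <;> first | decide | (exfalso; revert hp; decide)
  have hQ2 : Nat.Coprime Q 2 := Nat.Coprime.coprime_mul_right_right hQc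
  have hQm : Nat.Coprime Q m := Nat.Coprime.coprime_mul_left_right hQc
  have hQRc : Nat.Coprime Q R := coprime_of_no_prime _ _ fun p hp h1 h2 =>
    hp.one_lt.ne' (Nat.dvd_one.1 (by rw [← hQc]; exact Nat.dvd_gcd h1 (hR p hp h2)))
  have hmR : m ∣ R := by
    have h1 : m ∣ Q * R := by rw [← hQR]; exact hmM.trans (Dvd.intro _ rfl)
    exact hQm.symm.dvd_of_dvd_mul_left h1
  have hμQ : Nat.Coprime (m * R ^ 2) Q :=
    Nat.Coprime.mul_left hQm.symm (Nat.Coprime.pow_left 2 hQRc.symm)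
  obtain ⟨w0, hw0⟩ := lin_solve 2 (β * (m * R ^ 2)) Q hQ2.symm hQ0
  obtain ⟨a2, ha2⟩ := lin_solve (m * R ^ 2) (1 + Q ^ 2 * w0) (Q ^ 3) (Nat.Coprime.pow_right 3 hμQ)
    (pow_pos hQ0 3)
  obtain ⟨R1, hR1⟩ : ∃ R1, R = R1 + 1 := ⟨R - 1, by omega⟩
  obtain ⟨n1, hn1lt, hn1, hn1'⟩ : ∃ n1, n1 < R * Q ^ 3 ∧ n1 ≡ β * Q ^ 2 * R1 [MOD R] ∧
      n1 ≡ a2 [MOD Q ^ 3] := by
    have hc := Nat.Coprime.pow_right 3 hQRc.symm
    exact ⟨_, Nat.chineseRemainder_lt_mul hc (β * Q ^ 2 * R1) a2 hR0.ne' (pow_pos hQ0 3).ne',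
      (Nat.chineseRemainder hc (β * Q ^ 2 * R1) a2).2⟩
  set n0 := n1 + R * Q ^ 3 with hn0
  have hn0pos : 0 < n0 := by positivity
  have hn0lt : n0 < 2 * (R * Q ^ 3) := by omega
  have e1 : (R : ℤ) ∣ (n0 : ℤ) + (β : ℤ) * (Q : ℤ) ^ 2 := by
    have h1 : n0 + β * Q ^ 2 ≡ 0 [MOD R] := by
      have h2 : n0 ≡ β * Q ^ 2 * R1 [MOD R] := by
        have h3 : n1 + R * Q ^ 3 ≡ n1 + 0 [MOD R] :=
          Nat.ModEq.add_left _ (Nat.modEq_zero_iff_dvd.2 (Dvd.intro _ rfl))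
        rw [add_zero] at h3
        exact h3.trans hn1
      have h4 := Nat.ModEq.add_right (β * Q ^ 2) h2
      refine h4.trans ?_
      have h5 : β * Q ^ 2 * R1 + β * Q ^ 2 = R * (β * Q ^ 2) := by rw [hR1]; ring
      rw [h5]
      exact Nat.modEq_zero_iff_dvd.2 (Dvd.intro _ rfl)
    have h6 := Nat.modEq_zero_iff_dvd.1 h1
    exact_mod_cast h6
  have hμn : m * R ^ 2 * n0 ≡ 1 + Q ^ 2 * w0 [MOD Q ^ 3] := by
    refine Nat.ModEq.trans ?_ ha2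
    refine Nat.ModEq.mul_left _ ?_
    have h3 : n1 + R * Q ^ 3 ≡ n1 + 0 [MOD Q ^ 3] :=
      Nat.ModEq.add_left _ (Nat.modEq_zero_iff_dvd.2 (Dvd.intro_left _ rfl))
    rw [add_zero] at h3
    exact h3.trans hn1'
  have hμn1 : 1 ≤ m * R ^ 2 * n0 := Nat.mul_pos (Nat.mul_pos hm0 (pow_pos hR0 2)) hn0pos
  obtain ⟨w, hw⟩ : ∃ w, m * R ^ 2 * n0 = 1 + Q ^ 2 * w := by
    have h1 : 1 ≡ m * R ^ 2 * n0 [MOD Q ^ 2] := by
      have h2 : m * R ^ 2 * n0 ≡ 1 + Q ^ 2 * w0 [MOD Q ^ 2] :=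
        hμn.of_dvd (pow_dvd_pow Q (by norm_num))
      have h3 : 1 + Q ^ 2 * w0 ≡ 1 + 0 [MOD Q ^ 2] :=
        Nat.ModEq.add_left _ (Nat.modEq_zero_iff_dvd.2 (Dvd.intro _ rfl))
      exact (h2.trans h3).symm
    obtain ⟨w, hw⟩ := (Nat.modEq_iff_dvd' hμn1).1 h1
    exact ⟨w, by omega⟩
  have hwlt : w ≤ 2 * (m * R ^ 2 * R * Q) := by
    have h1 : Q ^ 2 * w ≤ Q ^ 2 * (2 * (m * R ^ 2 * R * Q)) := by
      have h2 : m * R ^ 2 * n0 ≤ m * R ^ 2 * (2 * (R * Q ^ 3)) := Nat.mul_le_mul_left _ hn0lt.le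
      have h3 : m * R ^ 2 * (2 * (R * Q ^ 3)) = Q ^ 2 * (2 * (m * R ^ 2 * R * Q)) := by ring
      omega
    exact Nat.le_of_mul_le_mul_left h1 (pow_pos hQ0 2)
  have hww : w ≡ w0 [MOD Q] := by
    rw [hw] at hμn
    have h1 : Q ^ 2 * w ≡ Q ^ 2 * w0 [MOD Q ^ 2 * Q] := by
      have := Nat.ModEq.add_left_cancel' 1 hμn
      rw [show Q ^ 3 = Q ^ 2 * Q by ring] at this
      exact this
    exact Nat.ModEq.mul_left_cancel' (pow_pos hQ0 2).ne' h1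
  have e3 : (Q : ℤ) ∣ 2 * (w : ℤ) - (β : ℤ) * ((m : ℤ) * (R : ℤ) ^ 2) := by
    have h1 : 2 * w ≡ β * (m * R ^ 2) [MOD Q] := (Nat.ModEq.mul_left 2 hww).trans hw0
    have h2 := (Nat.modEq_iff_dvd.1 h1.symm)
    push_cast at h2
    exact h2
  -- primes
  have hβp : ∀ p, p.Prime → p ∣ M' → ¬ p ∣ β := fun p hp h1 h2 =>
    hp.one_lt.ne' (Nat.dvd_one.1 (by rw [← hβ]; exact Nat.dvd_gcd h2 h1))
  have hcases : ∀ p, p.Prime → p ∣ M' → p ∣ Q ∨ p ∣ R := fun p hp h => by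
    rw [hQR] at h
    exact (Nat.Prime.dvd_mul hp).1 h
  have hnotboth : ∀ p, p.Prime → p ∣ Q → ¬ p ∣ R := fun p hp h1 h2 =>
    hp.one_lt.ne' (Nat.dvd_one.1 (by rw [← hQRc]; exact Nat.dvd_gcd h1 h2))
  have hnotm : ∀ p, p.Prime → p ∣ Q → ¬ p ∣ m := fun p hp h1 h2 => hnotboth p hp h1 (h2.trans hmR)
  set α : Fin 3 → ℕ := ![R * Q ^ 3, m * R ^ 2 * R * Q, m * R ^ 2 * (R * Q ^ 3)] with hα
  set γ : Fin 3 → ℕ := ![n0, w, m * R ^ 2 * n0 + 1] with hγ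
  have hiff : ∀ v p, p.Prime → (p ∣ α v ↔ p ∣ M') := by
    intro v p hp
    have hM'iff : p ∣ M' ↔ p ∣ Q ∨ p ∣ R := by rw [hQR]; exact Nat.Prime.dvd_mul hp
    rw [hM'iff]
    obtain ⟨i0, i1, i2⟩ := primes_alpha Q R m p hp (fun h => h.trans hmR)
    fin_cases v
    · exact i0
    · exact i1
    · exact i2
  have hαpos : ∀ v, 0 < α v := by
    intro v
    fin_cases v <;> simp only [hα, Fin.zero_eta, Fin.mk_one, Fin.reduceFinMk, Matrix.cons_val_zero,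
      Matrix.cons_val_one, Matrix.cons_val] <;> positivity
  have hbad : ∀ v p, p.Prime → p ∣ M' → ¬ p ∣ γ v := by
    intro v p hp hpM hpv
    have hp1 : ¬ p ∣ 1 := fun h => hp.one_lt.ne' (Nat.dvd_one.1 h)
    have hRμ : p ∣ R → p ∣ m * R ^ 2 := fun h => Dvd.dvd.mul_left (Dvd.dvd.trans h (Dvd.intro_left R (by ring))) m
    fin_cases v
    · simp only [hγ, Fin.zero_eta, Matrix.cons_val_zero] at hpv
      rcases hcases p hp hpM with h | h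
      · have h1 : p ∣ m * R ^ 2 * n0 := Dvd.dvd.mul_left hpv _
        rw [hw] at h1
        have h2 : p ∣ Q ^ 2 * w := Dvd.dvd.mul_right (Dvd.dvd.trans h (Dvd.intro_left Q (by ring))) w
        exact hp1 ((Nat.dvd_add_left h2).1 h1)
      · have h1 : (p : ℤ) ∣ (n0 : ℤ) + (β : ℤ) * (Q : ℤ) ^ 2 :=
          (Int.natCast_dvd_natCast.2 h).trans e1
        have h2 : p ∣ n0 + β * Q ^ 2 := by exact_mod_cast h1
        have h3 : p ∣ β * Q ^ 2 := (Nat.dvd_add_right hpv).1 h2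
        rcases (Nat.Prime.dvd_mul hp).1 h3 with h4 | h4
        · exact hβp p hp hpM h4
        · exact hnotboth p hp (hp.dvd_of_dvd_pow h4) h
    · simp only [hγ, Fin.mk_one, Matrix.cons_val_one, Matrix.cons_val_zero] at hpv
      rcases hcases p hp hpM with h | h
      · have h1 : (p : ℤ) ∣ 2 * (w : ℤ) - (β : ℤ) * ((m : ℤ) * (R : ℤ) ^ 2) :=
          (Int.natCast_dvd_natCast.2 h).trans e3
        have h2 : (p : ℤ) ∣ 2 * (w : ℤ) := Dvd.dvd.mul_left (Int.natCast_dvd_natCast.2 hpv) 2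
        have h3 : (p : ℤ) ∣ (β : ℤ) * ((m : ℤ) * (R : ℤ) ^ 2) := (dvd_sub_right h2).1 h1
        have h4 : p ∣ β * (m * R ^ 2) := by exact_mod_cast h3
        rcases (Nat.Prime.dvd_mul hp).1 h4 with h5 | h5
        · exact hβp p hp hpM h5
        · rcases (Nat.Prime.dvd_mul hp).1 h5 with h6 | h6
          · exact hnotm p hp h h6
          · exact hnotboth p hp h (hp.dvd_of_dvd_pow h6)
      · have h1 : p ∣ m * R ^ 2 * n0 := Dvd.dvd.mul_right (hRμ h) _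
        rw [hw] at h1
        exact hp1 ((Nat.dvd_add_left (Dvd.dvd.mul_left hpv _)).1 h1)
    · simp only [hγ, Fin.reduceFinMk, Matrix.cons_val] at hpv
      rcases hcases p hp hpM with h | h
      · have h2 : p ∣ Q ^ 2 * w := Dvd.dvd.mul_right (Dvd.dvd.trans h (Dvd.intro_left Q (by ring))) w
        rw [hw, show 1 + Q ^ 2 * w + 1 = 2 + Q ^ 2 * w by ring] at hpv
        have h3 : p ∣ 2 := (Nat.dvd_add_left h2).1 hpv
        exact hp1 (by rw [← hQ2]; exact Nat.dvd_gcd h h3)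
      · exact hp1 ((Nat.dvd_add_right (Dvd.dvd.mul_right (hRμ h) _)).1 hpv)
  have hmle : m ≤ M' := (Nat.le_of_dvd hM hmM).trans (by omega)
  have hα0 : α 0 = R * Q ^ 3 := rfl
  have hα1 : α 1 = m * R ^ 2 * R * Q := rfl
  have hα2 : α 2 = m * R ^ 2 * (R * Q ^ 3) := rfl
  have hγ0 : γ 0 = n0 := rfl
  have hγ1 : γ 1 = w := rfl
  have hγ2 : γ 2 = m * R ^ 2 * n0 + 1 := rfl
  refine ⟨α, γ, hαpos, fun v => coprime_of_no_prime _ _ fun p hp h1 => hbad v p hp ((hiff v p hp).1 h1),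
    fun v v' p hp h => (hiff v' p hp).2 ((hiff v p hp).1 h),
    fun v p hp h => (hiff v p hp).2 (hsmall p hp (by norm_num at h; omega)), ?_, ?_, ?_, ?_⟩
  · have k1 : ∀ a b c d : ℕ, a ≤ c → b ≤ d → a * b ≤ c * d := fun a b c d => Nat.mul_le_mul
    have q2 : Q ≤ Q ^ 3 := Nat.le_self_pow (by norm_num) Q
    have hRpos : 1 ≤ R ^ 3 := Nat.one_le_pow _ _ hR0
    have hQpos : 1 ≤ Q := hQ0
    rw [hM'2]
    intro v
    fin_cases v
    · change R * Q ^ 3 ≤ M' ^ 4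
      calc R * Q ^ 3 = (R * Q ^ 3) * 1 := (mul_one _).symm
        _ ≤ (R * Q ^ 3) * (R ^ 3 * Q) := Nat.mul_le_mul_left _ (Nat.mul_pos hRpos hQpos)
        _ = (Q * R) ^ 4 := by ring
        _ = M' ^ 4 := by rw [← hQR]
    · change m * R ^ 2 * R * Q ≤ M' ^ 4
      calc m * R ^ 2 * R * Q = m * (R ^ 3 * Q) := by ring
        _ ≤ M' * (R ^ 3 * Q ^ 3) := Nat.mul_le_mul hmle (Nat.mul_le_mul_left _ q2)
        _ = M' * (Q * R) ^ 3 := by ring
        _ = M' ^ 4 := by rw [← hQR]; ring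
    · change m * R ^ 2 * (R * Q ^ 3) ≤ M' ^ 4
      calc m * R ^ 2 * (R * Q ^ 3) = m * (Q * R) ^ 3 := by ring
        _ ≤ M' * (Q * R) ^ 3 := Nat.mul_le_mul_right _ hmle
        _ = M' ^ 4 := by rw [← hQR]; ring
  · intro v
    fin_cases v
    · exact hn0lt.le
    · exact hwlt
    · change m * R ^ 2 * n0 + 1 ≤ 2 * (m * R ^ 2 * (R * Q ^ 3))
      have h1 : m * R ^ 2 * n0 < m * R ^ 2 * (2 * (R * Q ^ 3)) :=
        Nat.mul_lt_mul_of_pos_left hn0lt (Nat.mul_pos hm0 (pow_pos hR0 2))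
      have h2 : m * R ^ 2 * (2 * (R * Q ^ 3)) = 2 * (m * R ^ 2 * (R * Q ^ 3)) := by ring
      omega
  · rw [hα0, hα1, hα2, hM'2]
    calc m * (R * Q ^ 3 * (m * R ^ 2 * R * Q) * (m * R ^ 2 * (R * Q ^ 3)))
        = m ^ 3 * (Q * R) ^ 7 := by ring
      _ ≤ M' ^ 3 * (Q * R) ^ 7 := Nat.mul_le_mul_right _ (Nat.pow_le_pow_left hmle 3)
      _ = M' ^ 10 := by rw [← hQR]; ring
  intro t hsq
  have hcopM : ∀ v p, p.Prime → p ∣ α v * t + γ v → ¬ p ∣ M' := by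
    intro v p hp h1 h2
    have h3 := (hiff v p hp).2 h2
    exact hbad v p hp h2 ((Nat.dvd_add_right (Dvd.dvd.mul_right h3 t)).1 h1)
  have hL0 := hsq 0
  have hL1 := hsq 1
  have hL2 := hsq 2
  have hc0 := hcopM 0
  have hc1 := hcopM 1
  have hc2 := hcopM 2
  rw [hα0, hγ0] at hL0 hc0
  rw [hα1, hγ1] at hL1 hc1
  rw [hα2, hγ2] at hL2 hc2
  rw [hα0, hγ0, hα1, hγ1, hα2, hγ2]
  have hs : m * R ^ 2 * (R * Q ^ 3 * t + n0) = 1 + Q ^ 2 * (m * R ^ 2 * R * Q * t + w) := by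
    linear_combination hw
  have hs2 : m * R ^ 2 * (R * Q ^ 3) * t + (m * R ^ 2 * n0 + 1) = m * R ^ 2 * (R * Q ^ 3 * t + n0) + 1 := by
    ring
  rw [hs2] at hL2 hc2 ⊢
  set n := R * Q ^ 3 * t + n0 with hn
  set L := m * R ^ 2 * R * Q * t + w with hL
  set T := m * R ^ 2 * n + 1 with hT
  have hT2 : T = 2 + Q ^ 2 * L := by rw [hT, hs]; ring
  have hn_pos : 0 < n := Nat.pos_of_ne_zero hL0.ne_zero
  have hL_pos : 0 < L := Nat.pos_of_ne_zero hL1.ne_zero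
  have hp1 : ∀ p, p.Prime → ¬ p ∣ 1 := fun p hp h => hp.one_lt.ne' (Nat.dvd_one.1 h)
  have c01 : Nat.Coprime n L := coprime_of_no_prime _ _ fun p hp h1 h2 => by
    have h3 : p ∣ 1 + Q ^ 2 * L := by rw [← hs]; exact Dvd.dvd.mul_left h1 _
    exact hp1 p hp ((Nat.dvd_add_left (Dvd.dvd.mul_left h2 _)).1 h3)
  have c02 : Nat.Coprime n T := coprime_of_no_prime _ _ fun p hp h1 h2 =>
    hp1 p hp ((Nat.dvd_add_right (Dvd.dvd.mul_left h1 _)).1 h2)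
  have c12 : Nat.Coprime L T := coprime_of_no_prime _ _ fun p hp h1 h2 => by
    rw [hT2] at h2
    have h3 : p ∣ 2 := (Nat.dvd_add_left (Dvd.dvd.mul_left h1 _)).1 h2
    have h4 : p = 2 := (Nat.prime_dvd_prime_iff_eq hp Nat.prime_two).1 h3
    exact hc1 p hp h1 (hsmall p hp (by omega))
  have hbsq : Squarefree (n * L * T) := by
    rw [Nat.squarefree_mul (Nat.Coprime.mul_left c02 c12), Nat.squarefree_mul c01]
    exact ⟨⟨hL0, hL1⟩, hL2⟩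
  have hbM : ∀ q, q.Prime → q ∣ n * L * T → ¬ q ∣ M' := by
    intro q hq h
    rcases (Nat.Prime.dvd_mul hq).1 h with h | h
    · rcases (Nat.Prime.dvd_mul hq).1 h with h | h
      · exact hc0 q hq h
      · exact hc1 q hq h
    · exact hc2 q hq h
  have hmb : Nat.Coprime m (n * L * T) := coprime_of_no_prime _ _ fun p hp h1 h2 =>
    hbM p hp h2 (h1.trans (hmM.trans (Dvd.intro _ rfl)))
  refine ⟨?_, ?_, ?_⟩
  · rw [Nat.squarefree_mul hmb]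
    exact ⟨hg, hbsq⟩
  · have h1 : ((Q : ℤ) * R) ∣ (n : ℤ) * L * (m * R ^ 2 * n + 1) - β := by
      refine class_calc Q R m β n0 w t (Nat.isCoprime_iff_coprime.2 hQRc)
        (Nat.isCoprime_iff_coprime.2 hQm) e1 (by exact_mod_cast hw) e3 n L ?_ ?_
      · rw [hn]; push_cast; ring
      · rw [hL]; push_cast; ring
    have h2 : β ≡ n * L * T [MOD M'] := by
      rw [Nat.modEq_iff_dvd, hQR, hT]
      push_cast
      exact h1
    have h3 : n * L * T ≡ β [MOD M] := h2.symm.of_dvd (Dvd.intro _ rfl)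
    exact (Nat.ModEq.mul_left m h3).trans hβr
  · refine congruent_of (m * (n * L * T)) (m * R ^ 2 * n) (R * Q) ?_ (Nat.mul_pos hR0 hQ0)
      (Nat.mul_pos (Nat.mul_pos hm0 (pow_pos hR0 2)) hn_pos)
    calc m * (n * L * T) * (R * Q) ^ 2 + m * R ^ 2 * n
        = (m * R ^ 2 * n) * ((Q ^ 2 * L) * T + 1) := by ring
      _ = (m * R ^ 2 * n) * (1 + Q ^ 2 * L) ^ 2 := by rw [hT2]; ring
      _ = (m * R ^ 2 * n) ^ 3 := by rw [← hs]; ring

end Pool.Agent.Work.MP_8efaaa_nt
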