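import Pool.Agent.Work.MP_8efaaa_nt.U.Bh
import Pool.Agent.Work.MP_8efaaa_nt.SieveX

set_option autoImplicit false

open Finset

namespace Pool.Agent.Work.MP_8efaaa_nt

open Pool.Agent.Work.MP_f473e4_nt

theorem big_primes' (n R e : ℕ) (hn : 0 < n) (hR : 2 ≤ R) (hnR : n < R ^ e) :
    (n.primeFactors.filter (fun p => R < p)).card < e := by
  have h1 : R ^ (n.primeFactors.filter (fun p => R < p)).card
      ≤ ∏ p ∈ n.primeFactors.filter (fun p => R < p), p := by
    rw [← prod_const]
    exact prod_le_prod' fun p hp => (mem_filter.1 hp).2.le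
  have h2 : ∏ p ∈ n.primeFactors.filter (fun p => R < p), p ≤ ∏ p ∈ n.primeFactors, p := by
    refine prod_le_prod_of_subset_of_one_le' (filter_subset _ _) ?_
    intro p hp _
    exact (Nat.prime_of_mem_primeFactors hp).one_le
  have h3 : ∏ p ∈ n.primeFactors, p ≤ n := Nat.le_of_dvd hn (Nat.prod_primeFactors_dvd n)
  have h4 : R ^ (n.primeFactors.filter (fun p => R < p)).card < R ^ e :=
    lt_of_le_of_lt (h1.trans (h2.trans h3)) hnR
  exact (Nat.pow_lt_pow_iff_right (by omega : 1 < R)).1 h4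

/-- Uniform sieve for linear forms whose leading coefficients have the same primes: many values of
the variable below `N` for which all forms are squarefree with few prime factors, all large. -/
theorem lin_unif (k b : ℕ) (hk1 : 1 ≤ k) (hb : 1 ≤ b) (hcard : 2 * k ≤ 2 ^ b) :
    ∃ J₀ : ℕ, ∀ J ≥ J₀, ∀ N : ℕ, 2 ^ (2 ^ (J + (b + 8))) ≤ N → N < 2 ^ (2 ^ (J + (b + 9))) →
    ∀ (ι : Type) [Fintype ι], Fintype.card ι = k → ∀ α β : ι → ℕ, (∀ v, 0 < α v) →
    (∀ v, Nat.Coprime (α v) (β v)) → (∀ v w p, p.Prime → p ∣ α v → p ∣ α w) →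
    (∀ v p, p.Prime → p ≤ 2 ^ b → p ∣ α v) → (∑ v, (α v + β v)) ^ 5 ≤ N ^ 4 →
    ∃ S : Finset ℕ, N ≤ S.card * 2 ^ (2 ^ J) ∧ ∀ m ∈ S, m < N ∧
      (∀ v, Squarefree (α v * m + β v)) ∧
      (∀ v q, q.Prime → q ∣ α v * m + β v → 2 ^ (2 ^ J) < q) ∧
      ∑ v, (α v * m + β v).primeFactors.card ≤ (22 * (b + 7) + 7) * k := by
  classical
  have hc : 160 * k + 8 ≤ 2 ^ (b + 8 - 1) := by
    have : 2 ^ (b + 8 - 1) = 128 * 2 ^ b := by
      rw [show b + 8 - 1 = b + 7 by omega, pow_add]
      ring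
    rw [this]
    have : 1 ≤ 2 ^ b := Nat.one_le_two_pow
    omega
  obtain ⟨J₀, hJ₀⟩ := bh k (b + 8) hk1 (by omega) hc
  obtain ⟨J₁, hJ₁⟩ := bigJ k (3 * k)
  refine ⟨max J₀ J₁, fun J hJ N hN1 hN2 ι _ hι α β hα hcop hsame hsmall hK => ?_⟩
  obtain ⟨v0⟩ : Nonempty ι := Fintype.card_pos_iff.1 (by omega)
  -- basic facts
  have hβ : ∀ v, 0 < β v := by
    intro v
    rcases Nat.eq_zero_or_pos (β v) with h | h
    · exfalso
      have h1 := hcop v
      rw [h, Nat.coprime_zero_right] at h1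
      have h2 : 2 ∣ α v := hsmall v 2 Nat.prime_two (by
        calc 2 = 2 ^ 1 := by norm_num
          _ ≤ 2 ^ b := Nat.pow_le_pow_right (by norm_num) hb)
      rw [h1] at h2
      norm_num at h2
    · exact h
  have hnd : ∀ v m q, q.Prime → q ∣ α v → ¬ q ∣ α v * m + β v := by
    intro v m q hq h1 h2
    have h3 : q ∣ β v := (Nat.dvd_add_right (Dvd.dvd.mul_right h1 m)).1 h2
    have h4 : q ∣ 1 := by
      rw [← hcop v]
      exact Nat.dvd_gcd h1 h3
    exact hq.one_lt.ne' (Nat.dvd_one.1 h4)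
  have hcopq : ∀ v q, q.Prime → ¬ q ∣ α v → Nat.Coprime q (α v) := fun v q hq h =>
    (Nat.Prime.coprime_iff_not_dvd hq).2 h
  have hbig : ∀ v q, q.Prime → ¬ q ∣ α v → 2 ^ b < q := by
    intro v q hq h
    by_contra hle
    exact h (hsmall v q hq (by omega))
  -- the sieve data
  set P : ℕ → Finset ℕ := fun j =>
    (Ioc (2 ^ (2 ^ (j - 1))) (2 ^ (2 ^ j))).filter (fun p => p.Prime ∧ ¬ p ∣ α v0) with hPdef
  set A : ℕ → Finset ℕ := fun p =>
    if p.Prime ∧ ¬ p ∣ α v0 then (range p).filter (fun m => ∃ v, p ∣ α v * m + β v) else ∅ with hAdef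
  have hP : ∀ j, 1 ≤ j → ∀ p ∈ P j, p.Prime ∧ 2 ^ (2 ^ (j - 1)) < p ∧ p ≤ 2 ^ (2 ^ j) ∧ 2 * k ≤ p := by
    intro j _ p hp
    simp only [hPdef, mem_filter, mem_Ioc] at hp
    obtain ⟨⟨h1, h2⟩, h3, h4⟩ := hp
    have := hbig v0 p h3 h4
    exact ⟨h3, h1, h2, by omega⟩
  have hA : ∀ p, A p ⊆ range p := by
    intro p
    simp only [hAdef]
    split_ifs
    · exact filter_subset _ _
    · exact empty_subset _
  have hAk : ∀ p, (A p).card ≤ k := by
    intro p
    simp only [hAdef]
    split_ifs with h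
    · have h1 : (range p).filter (fun m => ∃ v, p ∣ α v * m + β v)
          ⊆ (univ : Finset ι).biUnion (fun v => (range p).filter (fun m => p ∣ α v * m + β v)) := by
        intro m hm
        simp only [mem_filter, mem_biUnion, mem_univ, true_and] at hm ⊢
        obtain ⟨h1, v, h2⟩ := hm
        exact ⟨v, h1, h2⟩
      refine (card_le_card h1).trans (card_biUnion_le.trans ?_)
      have h2 : ∀ v ∈ (univ : Finset ι), ((range p).filter (fun m => p ∣ α v * m + β v)).card ≤ 1 := by
        intro v _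
        have h3 : ¬ p ∣ α v := fun h4 => h.2 (hsame v v0 p h.1 h4)
        obtain ⟨a, _, ha⟩ := one_class p (α v) (β v) h.1.pos (hcopq v p h.1 h3)
        rw [card_le_one]
        intro m hm m' hm'
        simp only [mem_filter, mem_range] at hm hm'
        have h5 := ha m hm.2
        have h6 := ha m' hm'.2
        rw [Nat.mod_eq_of_lt hm.1] at h5
        rw [Nat.mod_eq_of_lt hm'.1] at h6
        omega
      refine (sum_le_sum h2).trans ?_
      simp [hι]
    · simp
  obtain ⟨Y, hY1, hY2, hY3⟩ := hJ₀ J (le_trans (le_max_left _ _) hJ) N hN1 P hP A hA hAk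
  have hKbig := hJ₁ J (le_trans (le_max_right _ _) hJ)
  set K := ∑ v, (α v + β v) with hKdef
  set R : ℕ := 2 ^ (2 ^ (J + (b + 8) - 1)) with hR
  set z : ℕ := 2 ^ (2 ^ J) with hz
  have hRR : R * R = 2 ^ (2 ^ (J + (b + 8))) := by
    rw [hR, ← pow_add]
    congr 1
    have : J + (b + 8) = (J + (b + 8) - 1) + 1 := by omega
    rw [this, Nat.add_sub_cancel, pow_succ]
    ring
  have hRN : R * R ≤ N := by rw [hRR]; exact hN1
  have hNR : N < R ^ 4 := by
    have h1 : R ^ 4 = 2 ^ (2 ^ (J + (b + 9))) := by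
      have : R ^ 4 = (R * R) * (R * R) := by ring
      rw [this, hRR, ← pow_add]
      congr 1
      have : J + (b + 9) = J + (b + 8) + 1 := by omega
      rw [this, pow_succ]
      ring
    rw [h1]
    exact hN2
  have hzR : z ≤ R :=
    Nat.pow_le_pow_right (by norm_num) (Nat.pow_le_pow_right (by norm_num) (by omega))
  have hz2 : 2 ≤ z := by
    calc 2 = 2 ^ 1 := by norm_num
      _ ≤ 2 ^ (2 ^ J) := Nat.pow_le_pow_right (by norm_num) Nat.one_le_two_pow
  have hzN : z ^ 10 ≤ N := by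
    refine le_trans ?_ hN1
    rw [hz, ← pow_mul]
    refine Nat.pow_le_pow_right (by norm_num) ?_
    rw [pow_add]
    refine Nat.mul_le_mul_left _ ?_
    calc 10 ≤ 2 ^ 8 := by norm_num
      _ ≤ 2 ^ (b + 8) := Nat.pow_le_pow_right (by norm_num) (by omega)
  have hzpos : (0 : ℝ) < z := by exact_mod_cast (by omega : 0 < z)
  have hRpos : (0 : ℝ) < R := by exact_mod_cast (by omega : 0 < R)
  have hN0 : 0 < N := by
    have : 0 < R * R := Nat.mul_pos (by omega) (by omega)
    omega
  have hNpos : (0 : ℝ) < N := by exact_mod_cast hN0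
  have hY0 : 0 < Y := lt_of_lt_of_le (by positivity) hY1
  set S := (range N).filter (fun m => ∀ j ∈ Icc 1 J, ∀ p ∈ P j, m % p ∉ A p) with hS
  have hScard : Y * N ≤ 2 * (S.card : ℝ) := by linarith
  have hSpos : (0 : ℝ) < S.card := by
    have := mul_pos hY0 hNpos
    linarith
  -- no small prime divides
  have hfree : ∀ m ∈ S, ∀ v q, q.Prime → q ∣ α v * m + β v → z < q := by
    intro m hm v q hq hdvd
    by_contra hle
    have hle : q ≤ z := by omega
    have h1 : ¬ q ∣ α v := fun h => hnd v m q hq h hdvd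
    have h2 : ¬ q ∣ α v0 := fun h => h1 (hsame v0 v q hq h)
    have h3 := hbig v q hq h1
    have h4 : 2 < q := by
      have : 2 ^ 1 ≤ 2 ^ b := Nat.pow_le_pow_right (by norm_num) hb
      omega
    -- find the block
    have hex : ∃ j, q ≤ 2 ^ (2 ^ j) := ⟨J, hle⟩
    set j := Nat.find hex with hj
    have hj1 : q ≤ 2 ^ (2 ^ j) := Nat.find_spec hex
    have hjJ : j ≤ J := Nat.find_min' hex hle
    have hj0 : 1 ≤ j := by
      rcases Nat.eq_zero_or_pos j with h | h
      · rw [h] at hj1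
        norm_num at hj1
        omega
      · exact h
    have hj2 : ¬ q ≤ 2 ^ (2 ^ (j - 1)) := Nat.find_min hex (by omega)
    have hqP : q ∈ P j := by
      simp only [hPdef, mem_filter, mem_Ioc]
      exact ⟨⟨by omega, hj1⟩, hq, h2⟩
    have h5 := (mem_filter.1 hm).2 j (mem_Icc.2 ⟨hj0, hjJ⟩) q hqP
    apply h5
    simp only [hAdef]
    rw [if_pos ⟨hq, h2⟩, mem_filter, mem_range]
    refine ⟨Nat.mod_lt _ hq.pos, v, ?_⟩
    have h6 : α v * (m % q) + β v ≡ α v * m + β v [MOD q] :=
      Nat.ModEq.add_right _ (Nat.ModEq.mul_left _ (Nat.mod_modEq m q))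
    exact (Nat.modEq_zero_iff_dvd.1 (h6.trans (Nat.modEq_zero_iff_dvd.2 hdvd)))
  -- (i)
  set W : ι → ℕ → ℕ := fun v m => ((Ioc z R).filter (fun q => q.Prime ∧ q ∣ α v * m + β v)).card with hW
  have hi : ∀ v, ((∑ m ∈ S, W v m : ℕ) : ℝ) ≤ 16 * (b + 7) * S.card := by
    intro v
    have h1 : ∑ m ∈ S, W v m
        = ∑ q ∈ (Ioc z R).filter Nat.Prime, (S.filter (fun m => q ∣ α v * m + β v)).card := by
      simp only [hW, card_filter, sum_filter]
      rw [sum_comm]
      refine sum_congr rfl fun q _ => ?_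
      by_cases hq : q.Prime
      · simp [hq]
      · simp [hq]
    rw [h1]
    push_cast
    have h2 : ∀ q ∈ (Ioc z R).filter Nat.Prime, ((S.filter (fun m => q ∣ α v * m + β v)).card : ℝ)
        ≤ 2 * Y * N * (1 / q) := by
      intro q hq
      obtain ⟨h3, h4⟩ := mem_filter.1 hq
      obtain ⟨h5, h6⟩ := mem_Ioc.1 h3
      by_cases h7 : q ∣ α v
      · have : S.filter (fun m => q ∣ α v * m + β v) = ∅ := by
          rw [filter_eq_empty_iff]
          intro m _
          exact hnd v m q h4 h7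
        rw [this, card_empty, Nat.cast_zero]
        positivity
      · obtain ⟨a, ha, hcl⟩ := one_class q (α v) (β v) h4.pos (hcopq v q h4 h7)
        have h8 := hY3 q a h4 (by
          intro j hj hqj
          have h9 := (hP j (mem_Icc.1 hj).1 q hqj).2.2.1
          have h10 : 2 ^ (2 ^ j) ≤ z :=
            Nat.pow_le_pow_right (by norm_num) (Nat.pow_le_pow_right (by norm_num) (mem_Icc.1 hj).2)
          omega) ((Nat.mul_le_mul_right _ h6).trans hRN) ha
        have h9 : (S.filter (fun m => q ∣ α v * m + β v)).card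
            ≤ ((range N).filter (fun m => m % q = a ∧ ∀ j ∈ Icc 1 J, ∀ p ∈ P j, m % p ∉ A p)).card := by
          refine card_le_card ?_
          intro m hm
          simp only [hS, mem_filter] at hm ⊢
          exact ⟨hm.1.1, hcl m hm.2, hm.1.2⟩
        have h10 : ((S.filter (fun m => q ∣ α v * m + β v)).card : ℝ)
            ≤ (((range N).filter (fun m => m % q = a ∧ ∀ j ∈ Icc 1 J, ∀ p ∈ P j, m % p ∉ A p)).card : ℝ) := by
          exact_mod_cast h9
        refine h10.trans (h8.trans (le_of_eq (by ring)))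
    refine (sum_le_sum h2).trans ?_
    rw [← mul_sum]
    have h3 := blocks_sum J (b + 7)
    have h4 : J + (b + 8) - 1 = J + (b + 7) := by omega
    have h5 : ∑ q ∈ (Ioc z R).filter Nat.Prime, (1 : ℝ) / q ≤ 4 * (b + 7 : ℕ) := by
      rw [hR, h4]
      exact h3
    have h6 : 2 * Y * N * ∑ q ∈ (Ioc z R).filter Nat.Prime, (1 : ℝ) / q ≤ 2 * Y * N * (4 * (b + 7 : ℕ)) :=
      mul_le_mul_of_nonneg_left h5 (by positivity)
    refine h6.trans ?_
    push_cast
    have hb0 : (0 : ℝ) ≤ (b : ℝ) + 7 := by positivity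
    have h7 : Y * N * (b + 7) ≤ 2 * (S.card : ℝ) * (b + 7) := mul_le_mul_of_nonneg_right hScard hb0
    nlinarith
  -- (ii)
  set T : ℕ := Nat.sqrt (K * N) with hT
  have hTz : T * z ≤ N := by
    have h1 : T * T ≤ K * N := Nat.sqrt_le (K * N)
    have h2 : (T * z) ^ 10 ≤ N ^ 10 := by
      calc (T * z) ^ 10 = (T * T) ^ 5 * z ^ 10 := by ring
        _ ≤ (K * N) ^ 5 * N := Nat.mul_le_mul (Nat.pow_le_pow_left h1 5) hzN
        _ = K ^ 5 * N ^ 6 := by ring
        _ ≤ N ^ 4 * N ^ 6 := Nat.mul_le_mul_right _ hK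
        _ = N ^ 10 := by ring
    exact (Nat.pow_le_pow_iff_left (by norm_num)).1 h2
  have hlin : ∀ v, ∀ m < N, α v * m + β v ≤ K * N := by
    intro v m hm
    have hKv : α v + β v ≤ K := by
      rw [hKdef]
      exact single_le_sum (f := fun v => α v + β v) (fun v _ => Nat.zero_le _) (mem_univ v)
    have h3 : α v * m ≤ α v * N := Nat.mul_le_mul_left _ hm.le
    have h4 : β v * 1 ≤ β v * N := Nat.mul_le_mul_left _ (by omega)
    have h5 := Nat.mul_le_mul_right N hKv
    rw [add_mul] at h5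
    omega
  set Bad : ι → Finset ℕ := fun v => S.filter (fun m => ¬ Squarefree (α v * m + β v)) with hBad
  have hii : ∀ v, ((Bad v).card : ℝ) ≤ 2 * (N / z) := by
    intro v
    have hsub : Bad v ⊆ ((Ioc z T).filter Nat.Prime).biUnion
        (fun q => (range N).filter (fun m => q ^ 2 ∣ α v * m + β v)) := by
      intro m hm
      obtain ⟨h1, h2⟩ := mem_filter.1 hm
      rw [Nat.squarefree_iff_prime_squarefree] at h2
      push Not at h2
      obtain ⟨q, hq, hq2⟩ := h2
      have hmM : m < N := mem_range.1 (mem_filter.1 h1).1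
      have hpos : 0 < α v * m + β v := by
        have := hβ v
        omega
      have hqd : q ∣ α v * m + β v := (Dvd.intro _ rfl).trans hq2
      have hzq := hfree m h1 v q hq hqd
      have hle : q * q ≤ α v * m + β v := Nat.le_of_dvd hpos hq2
      have hqR : q ≤ T := Nat.le_sqrt.2 (hle.trans (hlin v m hmM))
      simp only [mem_biUnion, mem_filter, mem_Ioc, mem_range]
      exact ⟨q, ⟨⟨hzq, hqR⟩, hq⟩, hmM, by rw [pow_two]; exact hq2⟩
    by_cases hzT : z ≤ T
    swap
    · have h1 : Bad v = ∅ := by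
        rw [Ioc_eq_empty (by omega), filter_empty, biUnion_empty] at hsub
        exact subset_empty.1 hsub
      rw [h1, card_empty, Nat.cast_zero]
      positivity
    have h1 : ((Bad v).card : ℝ) ≤ ∑ q ∈ (Ioc z T).filter Nat.Prime,
        (((range N).filter (fun m => q ^ 2 ∣ α v * m + β v)).card : ℝ) := by
      exact_mod_cast (card_le_card hsub).trans card_biUnion_le
    refine h1.trans ?_
    have h2 : ∀ q ∈ (Ioc z T).filter Nat.Prime,
        (((range N).filter (fun m => q ^ 2 ∣ α v * m + β v)).card : ℝ) ≤ N * ((q : ℝ) ^ 2)⁻¹ + 1 := by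
      intro q hq
      obtain ⟨h3, h4⟩ := mem_filter.1 hq
      by_cases h7 : q ∣ α v
      · have : (range N).filter (fun m => q ^ 2 ∣ α v * m + β v) = ∅ := by
          rw [filter_eq_empty_iff]
          intro m _ h8
          exact hnd v m q h4 h7 ((dvd_pow_self q (by norm_num)).trans h8)
        rw [this, card_empty, Nat.cast_zero]
        positivity
      · obtain ⟨a, ha, hcl⟩ := one_class (q ^ 2) (α v) (β v) (pow_pos h4.pos 2)
          (Nat.Coprime.pow_left 2 (hcopq v q h4 h7))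
        have h9 : ((range N).filter (fun m => q ^ 2 ∣ α v * m + β v)).card
            ≤ ((range N).filter (fun m => m % (q ^ 2) = a)).card := by
          refine card_le_card ?_
          intro m hm
          simp only [mem_filter] at hm ⊢
          exact ⟨hm.1, hcl m hm.2⟩
        have h10 : (((range N).filter (fun m => q ^ 2 ∣ α v * m + β v)).card : ℝ)
            ≤ (((range N).filter (fun m => m % (q ^ 2) = a)).card : ℝ) := by exact_mod_cast h9
        refine h10.trans ((class_count N (q ^ 2) a (pow_pos h4.pos 2) ha).trans (le_of_eq ?_))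
        push_cast
        ring
    refine (sum_le_sum h2).trans ?_
    rw [sum_add_distrib, ← mul_sum]
    have h3 : ∑ q ∈ (Ioc z T).filter Nat.Prime, ((q : ℝ) ^ 2)⁻¹ ≤ (z : ℝ)⁻¹ := by
      have h4 : ∑ q ∈ (Ioc z T).filter Nat.Prime, ((q : ℝ) ^ 2)⁻¹
          ≤ ∑ q ∈ Ioc z T, ((q : ℝ) ^ 2)⁻¹ :=
        sum_le_sum_of_subset_of_nonneg (filter_subset _ _) fun q _ _ => by positivity
      have h6 := sum_Ioc_inv_sq_le_sub (α := ℝ) (by omega : z ≠ 0) hzT
      have h7 : (0 : ℝ) ≤ ((T : ℕ) : ℝ)⁻¹ := by positivity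
      linarith
    have h4 : ∑ q ∈ (Ioc z T).filter Nat.Prime, (1 : ℝ) ≤ N / z := by
      rw [sum_const, nsmul_eq_mul, mul_one]
      have h5 : ((Ioc z T).filter Nat.Prime).card ≤ T := by
        refine (card_filter_le _ _).trans ?_
        rw [Nat.card_Ioc]
        omega
      have h6 : (((Ioc z T).filter Nat.Prime).card : ℝ) ≤ T := by exact_mod_cast h5
      refine h6.trans ?_
      rw [le_div_iff₀ hzpos]
      exact_mod_cast hTz
    have h5 : (N : ℝ) * ∑ q ∈ (Ioc z T).filter Nat.Prime, ((q : ℝ) ^ 2)⁻¹ ≤ N / z := by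
      rw [div_eq_mul_inv]
      exact mul_le_mul_of_nonneg_left h3 hNpos.le
    linarith
  have h32 : 32 * (k : ℝ) ≤ z * Y := by
    have h3 : ((k : ℝ) + 3 * k) * 2 ^ (8 * k * J + 3) ≤ z := by exact_mod_cast hKbig
    have h4 : (2 : ℝ) ^ (8 * k * J) * (1 / 4 : ℝ) ^ (4 * k * J) = 1 := by
      rw [show (1 / 4 : ℝ) = (1 / 2) ^ 2 by norm_num, ← pow_mul,
        show 2 * (4 * k * J) = 8 * k * J by ring, ← mul_pow]
      norm_num
    have h6 : 32 * (k : ℝ) = ((k : ℝ) + 3 * k) * 2 ^ (8 * k * J + 3) * (1 / 4 : ℝ) ^ (4 * k * J) := by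
      rw [pow_add]
      have : ((k : ℝ) + 3 * k) * (2 ^ (8 * k * J) * 2 ^ 3) * (1 / 4 : ℝ) ^ (4 * k * J)
          = ((k : ℝ) + 3 * k) * 8 * ((2 : ℝ) ^ (8 * k * J) * (1 / 4 : ℝ) ^ (4 * k * J)) := by ring
      rw [this, h4, mul_one]
      ring
    rw [h6]
    calc ((k : ℝ) + 3 * k) * 2 ^ (8 * k * J + 3) * (1 / 4 : ℝ) ^ (4 * k * J)
        ≤ z * (1 / 4 : ℝ) ^ (4 * k * J) := mul_le_mul_of_nonneg_right h3 (by positivity)
      _ ≤ z * Y := mul_le_mul_of_nonneg_left hY1 hzpos.le
  have hk1r : (1 : ℝ) ≤ k := by exact_mod_cast hk1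
  have hbadsum : ∑ v, ((Bad v).card : ℝ) ≤ S.card / 8 := by
    have h1 : ∑ v, ((Bad v).card : ℝ) ≤ k * (2 * (N / z)) := by
      refine (sum_le_sum fun v _ => hii v).trans ?_
      rw [sum_const, nsmul_eq_mul]
      simp [hι]
    refine h1.trans ?_
    have h2 : (k : ℝ) * (2 * (N / z)) ≤ Y * N / 16 := by
      rw [show (k : ℝ) * (2 * (N / z)) = (2 * k * N) / z by ring, div_le_iff₀ hzpos]
      nlinarith
    linarith
  -- (iii)
  set S' := S.filter (fun m => ∀ v, Squarefree (α v * m + β v)) with hS'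
  have hS'card : (7 / 8 : ℝ) * S.card ≤ S'.card := by
    have h1 : S ⊆ S' ∪ (univ : Finset ι).biUnion Bad := by
      intro m hm
      rw [mem_union]
      by_cases h : ∀ v, Squarefree (α v * m + β v)
      · exact Or.inl (mem_filter.2 ⟨hm, h⟩)
      · push Not at h
        obtain ⟨v, hv⟩ := h
        exact Or.inr (mem_biUnion.2 ⟨v, mem_univ _, mem_filter.2 ⟨hm, hv⟩⟩)
    have h2 : S.card ≤ S'.card + ∑ v, (Bad v).card :=
      (card_le_card h1).trans ((card_union_le _ _).trans (Nat.add_le_add_left card_biUnion_le _))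
    have h3 : (S.card : ℝ) ≤ S'.card + ∑ v, ((Bad v).card : ℝ) := by exact_mod_cast h2
    linarith
  set S2 := S'.filter (fun m => ∑ v, W v m ≤ 22 * (b + 7) * k) with hS2
  set S3 := S'.filter (fun m => ¬ ∑ v, W v m ≤ 22 * (b + 7) * k) with hS3
  have hS3card : (11 : ℝ) * S3.card ≤ 8 * S.card := by
    have h1 : (22 * (b + 7) * k) * S3.card ≤ ∑ m ∈ S3, ∑ v, W v m := by
      rw [mul_comm, ← smul_eq_mul, ← sum_const]
      exact sum_le_sum fun m hm => (Nat.lt_of_not_le (mem_filter.1 hm).2).le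
    have h2 : ∑ m ∈ S3, ∑ v, W v m ≤ ∑ v, ∑ m ∈ S, W v m := by
      rw [sum_comm]
      exact sum_le_sum fun v _ => sum_le_sum_of_subset
        ((filter_subset _ _).trans (filter_subset _ _))
    have h3 : ((∑ v, ∑ m ∈ S, W v m : ℕ) : ℝ) ≤ k * (16 * (b + 7) * S.card) := by
      rw [Nat.cast_sum]
      refine (sum_le_sum fun v _ => hi v).trans ?_
      rw [sum_const, nsmul_eq_mul]
      simp [hι]
    have h4 : (((22 * (b + 7) * k) * S3.card : ℕ) : ℝ) ≤ ((∑ v, ∑ m ∈ S, W v m : ℕ) : ℝ) := by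
      exact_mod_cast h1.trans h2
    push_cast at h4 h3
    have h5 : (0 : ℝ) < (b + 7) * k := by
      have : (0 : ℝ) < k := by exact_mod_cast hk1
      positivity
    have h6 : ((b : ℝ) + 7) * k * (11 * S3.card) ≤ ((b : ℝ) + 7) * k * (8 * S.card) := by
      linarith
    exact le_of_mul_le_mul_left h6 h5
  have hS2card : (S.card : ℝ) ≤ 8 * S2.card := by
    have h1 : S2.card + S3.card = S'.card := card_filter_add_card_filter_not _
    have h2 : (S2.card : ℝ) + S3.card = S'.card := by exact_mod_cast h1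
    linarith
  refine ⟨S2, ?_, ?_⟩
  · have h1 : (N : ℝ) ≤ S2.card * z := by
      have h2 : Y * N ≤ 16 * S2.card := by linarith
      have h3 : 32 * (k : ℝ) * N ≤ z * Y * N := mul_le_mul_of_nonneg_right h32 hNpos.le
      have h4 : z * (Y * N) ≤ z * (16 * S2.card) := mul_le_mul_of_nonneg_left h2 hzpos.le
      have h5 : 32 * 1 * (N : ℝ) ≤ 32 * k * N := by
        refine mul_le_mul_of_nonneg_right ?_ hNpos.le
        linarith
      linarith
    exact_mod_cast h1
  · intro m hm
    obtain ⟨hmS', hmW⟩ := mem_filter.1 hm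
    obtain ⟨hmS, hmsq⟩ := mem_filter.1 hmS'
    have hmN : m < N := mem_range.1 (mem_filter.1 hmS).1
    refine ⟨hmN, hmsq, hfree m hmS, ?_⟩
    have hpf : ∀ v, (α v * m + β v).primeFactors.card ≤ W v m + 7 := by
      intro v
      have hpos : 0 < α v * m + β v := by
        have := hβ v
        omega
      have hlt : α v * m + β v < R ^ 8 := by
        refine lt_of_le_of_lt (hlin v m hmN) ?_
        have h1 : (K * N) ^ 5 < (R ^ 8) ^ 5 := by
          calc (K * N) ^ 5 = K ^ 5 * N ^ 5 := by ring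
            _ ≤ N ^ 4 * N ^ 5 := Nat.mul_le_mul_right _ hK
            _ = N ^ 9 := by ring
            _ < (R ^ 4) ^ 9 := Nat.pow_lt_pow_left hNR (by norm_num)
            _ = R ^ 36 := by ring
            _ ≤ R ^ 40 := Nat.pow_le_pow_right (by omega : 0 < R) (by norm_num)
            _ = (R ^ 8) ^ 5 := by ring
        exact lt_of_pow_lt_pow_left₀ 5 (Nat.zero_le _) h1
      have h3 := big_primes' (α v * m + β v) R 8 hpos (by omega) hlt
      have h4 : (α v * m + β v).primeFactors
          ⊆ (Ioc z R).filter (fun q => q.Prime ∧ q ∣ α v * m + β v) ∪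
            (α v * m + β v).primeFactors.filter (fun p => R < p) := by
        intro p hp
        have h5 := Nat.prime_of_mem_primeFactors hp
        have h6 := Nat.dvd_of_mem_primeFactors hp
        rw [mem_union]
        by_cases h7 : p ≤ R
        · left
          rw [mem_filter, mem_Ioc]
          exact ⟨⟨hfree m hmS v p h5 h6, h7⟩, h5, h6⟩
        · right
          rw [mem_filter]
          exact ⟨hp, by omega⟩
      refine (card_le_card h4).trans ((card_union_le _ _).trans ?_)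
      exact Nat.add_le_add_left (by omega) _
    calc ∑ v, (α v * m + β v).primeFactors.card ≤ ∑ v, (W v m + 7) := sum_le_sum fun v _ => hpf v
      _ = ∑ v, W v m + 7 * k := by
          rw [sum_add_distrib, sum_const]
          simp [hι, mul_comm]
      _ ≤ 22 * (b + 7) * k + 7 * k := Nat.add_le_add_right hmW _
      _ = (22 * (b + 7) + 7) * k := by ring

end Pool.Agent.Work.MP_8efaaa_nt
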