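import Pool.Agent.Work.MP_8efaaa_nt.U.Fam
import Pool.Agent.Work.MP_8efaaa_nt.U.Lin

set_option autoImplicit false

open Finset

namespace Pool.Agent.Work.MP_8efaaa_nt

/-- The scale `J` attached to `N`. -/
theorem scale (J₀ c N : ℕ) (h : 2 ^ (2 ^ (J₀ + c)) ≤ N) :
    ∃ J, J₀ ≤ J ∧ 2 ^ (2 ^ (J + c)) ≤ N ∧ N < 2 ^ (2 ^ (J + (c + 1))) := by
  have hex : ∃ J, N < 2 ^ (2 ^ (J + (c + 1))) := by
    refine ⟨N, ?_⟩
    have h1 : N < 2 ^ N := Nat.lt_two_pow_self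
    have h2 : N ≤ 2 ^ (N + (c + 1)) := by
      have h3 : 2 ^ N ≤ 2 ^ (N + (c + 1)) := Nat.pow_le_pow_right (by norm_num) (by omega)
      omega
    exact h1.trans_le (Nat.pow_le_pow_right (by norm_num) h2)
  classical
  set J := Nat.find hex with hJ
  have hJs := Nat.find_spec hex
  rw [← hJ] at hJs
  have hJ0 : J₀ ≤ J := by
    by_contra hlt
    push Not at hlt
    have h1 : 2 ^ (2 ^ (J + (c + 1))) ≤ 2 ^ (2 ^ (J₀ + c)) :=
      Nat.pow_le_pow_right (by norm_num) (Nat.pow_le_pow_right (by norm_num) (by omega))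
    omega
  refine ⟨J, hJ0, ?_, hJs⟩
  rcases Nat.eq_zero_or_pos J with h0 | hpos
  · rw [h0]
    refine le_trans ?_ h
    exact Nat.pow_le_pow_right (by norm_num) (Nat.pow_le_pow_right (by norm_num) (by omega))
  · have h1 := Nat.find_min hex (m := J - 1) (by rw [← hJ]; omega)
    have h2 : J - 1 + (c + 1) = J + c := by omega
    rw [h2] at h1
    omega

/-- The largest cube root type parameter. -/
theorem cube_param (D x : ℕ) (hD : 0 < D) :
    ∃ N, D * N ^ 3 ≤ x ∧ x < D * (N + 1) ^ 3 := by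
  classical
  set N := Nat.findGreatest (fun N => D * N ^ 3 ≤ x) x with hN
  refine ⟨N, ?_, ?_⟩
  · exact Nat.findGreatest_spec (P := fun N => D * N ^ 3 ≤ x) (m := 0) (Nat.zero_le _) (by simp)
  · by_contra hlt
    push Not at hlt
    have h1 : N + 1 ≤ x := by
      refine le_trans ?_ hlt
      calc N + 1 = 1 * (N + 1) ^ 1 := by ring
        _ ≤ D * (N + 1) ^ 3 := Nat.mul_le_mul hD (Nat.pow_le_pow_right (by omega) (by norm_num))
    have h2 := Nat.le_findGreatest (P := fun N => D * N ^ 3 ≤ x) h1 hlt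
    rw [← hN] at h2
    omega

theorem linnik : ∃ C : ℕ, ∀ M r x : ℕ, 0 < M → Squarefree (Nat.gcd r M) → C * M ^ 25 ≤ x →
    ∃ S : Finset ℕ, x ^ 33 ≤ C * M ^ 330 * S.card ^ 100 ∧ ∀ n ∈ S, n ≤ x ∧ n ≡ r [MOD M] ∧
      Squarefree n ∧ IsCongruent n ∧ (n / Nat.gcd r M).primeFactors.card ≤ 681 ∧
      ∀ q, q.Prime → q ∣ n / Nat.gcd r M → x ≤ q ^ 25000 := by
  classical
  obtain ⟨J₀, hJ₀⟩ := lin_unif 3 3 (by norm_num) (by norm_num) (by norm_num)
  set B0 : ℕ := 2 ^ (2 ^ (J₀ + 11)) with hB0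
  refine ⟨2 ^ 15 * 210 ^ 25 + 8 * 210 ^ 10 * B0 ^ 3 + 64 ^ 33 * 210 ^ 330,
    fun M r x hM hg hx => ?_⟩
  obtain ⟨α, γ, hα, hcop, hsame, hsmall, hα4, hγ, hprod, hfam⟩ := family M r hM hg
  set g := Nat.gcd r M with hgdef
  set M' := 210 * M with hM'
  have hM'0 : 0 < M' := by omega
  have hg0 : 0 < g := Nat.gcd_pos_of_pos_right _ hM
  have hM25 : 1 ≤ M ^ 25 := Nat.one_le_pow _ _ hM
  obtain ⟨N, hN1, hN2⟩ := cube_param (8 * M' ^ 10) x (by positivity)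
  -- N is large
  have hNM : 16 * M' ^ 5 ≤ N := by
    by_contra hlt
    push Not at hlt
    have h1 : 8 * M' ^ 10 * (N + 1) ^ 3 ≤ 8 * M' ^ 10 * (16 * M' ^ 5) ^ 3 :=
      Nat.mul_le_mul_left _ (Nat.pow_le_pow_left (by omega) 3)
    have h2 : 8 * M' ^ 10 * (16 * M' ^ 5) ^ 3 = (2 ^ 15 * 210 ^ 25) * M ^ 25 := by
      rw [hM']; ring
    have h3 : (2 ^ 15 * 210 ^ 25) * M ^ 25 ≤
        (2 ^ 15 * 210 ^ 25 + 8 * 210 ^ 10 * B0 ^ 3 + 64 ^ 33 * 210 ^ 330) * M ^ 25 := by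
      refine Nat.mul_le_mul_right _ ?_
      rw [add_assoc]
      exact Nat.le_add_right _ _
    have h4 := hN2.trans_le (h1.trans (h2.le.trans (h3.trans hx)))
    exact lt_irrefl _ h4
  have hNB : B0 ≤ N := by
    by_contra hlt
    push Not at hlt
    have h1 : 8 * M' ^ 10 * (N + 1) ^ 3 ≤ 8 * M' ^ 10 * B0 ^ 3 :=
      Nat.mul_le_mul_left _ (Nat.pow_le_pow_left (by omega) 3)
    have h2 : 8 * M' ^ 10 * B0 ^ 3 = (8 * 210 ^ 10 * B0 ^ 3) * M ^ 10 := by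
      rw [hM']; ring
    have h3 : (8 * 210 ^ 10 * B0 ^ 3) * M ^ 10 ≤
        (2 ^ 15 * 210 ^ 25 + 8 * 210 ^ 10 * B0 ^ 3 + 64 ^ 33 * 210 ^ 330) * M ^ 25 := by
      refine Nat.mul_le_mul ?_ (Nat.pow_le_pow_right hM (by norm_num))
      calc 8 * 210 ^ 10 * B0 ^ 3 ≤ 2 ^ 15 * 210 ^ 25 + 8 * 210 ^ 10 * B0 ^ 3 := Nat.le_add_left _ _
        _ ≤ _ := Nat.le_add_right _ _
    have h4 := hN2.trans_le (h1.trans (h2.le.trans (h3.trans hx)))
    exact lt_irrefl _ h4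
  obtain ⟨J, hJ, hz1, hz2⟩ := scale J₀ 11 N hNB
  have hM'5 : 1 ≤ M' ^ 5 := Nat.one_le_pow _ _ hM'0
  have hM'10 : M' ^ 10 ≤ N ^ 2 := by
    calc M' ^ 10 = (M' ^ 5) ^ 2 := by ring
      _ ≤ N ^ 2 := Nat.pow_le_pow_left (by omega) 2
  -- the sum condition
  have hK : (∑ v : Fin 3, (α v + γ v)) ^ 5 ≤ N ^ 4 := by
    have h1 : ∑ v : Fin 3, (α v + γ v) ≤ 9 * M' ^ 4 := by
      rw [Fin.sum_univ_three]
      have a0 := hα4 0
      have a1 := hα4 1
      have a2 := hα4 2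
      have b0 := hγ 0
      have b1 := hγ 1
      have b2 := hγ 2
      omega
    calc (∑ v : Fin 3, (α v + γ v)) ^ 5 ≤ (9 * M' ^ 4) ^ 5 := Nat.pow_le_pow_left h1 5
      _ = 59049 * (M' ^ 5) ^ 4 := by ring
      _ ≤ 65536 * (M' ^ 5) ^ 4 := Nat.mul_le_mul_right _ (by norm_num)
      _ = (16 * M' ^ 5) ^ 4 := by ring
      _ ≤ N ^ 4 := Nat.pow_le_pow_left hNM 4
  obtain ⟨S0, hS0, hS⟩ := hJ₀ J hJ N hz1 hz2 (Fin 3) (by simp) α γ hα hcop
    (fun v w p hp h => hsame v w p hp h) hsmall hK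
  set f : ℕ → ℕ := fun t => g * ((α 0 * t + γ 0) * (α 1 * t + γ 1) * (α 2 * t + γ 2)) with hf
  have hinj : Set.InjOn f S0 := by
    have key : ∀ t ∈ S0, ∀ t' ∈ S0, t < t' → f t ≠ f t' := by
      intro t ht t' ht' hlt heq
      obtain ⟨-, hsq, -, -⟩ := hS t ht
      have hp : ∀ v, 0 < α v * t + γ v := fun v => Nat.pos_of_ne_zero (hsq v).ne_zero
      have hl : ∀ v, α v * t + γ v < α v * t' + γ v := fun v =>
        Nat.add_lt_add_right (Nat.mul_lt_mul_of_pos_left hlt (hα v)) _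
      have h1 : (α 0 * t + γ 0) * (α 1 * t + γ 1) < (α 0 * t' + γ 0) * (α 1 * t' + γ 1) :=
        Nat.mul_lt_mul_of_lt_of_le (hl 0) (hl 1).le ((hp 1).trans (hl 1))
      have h2 : (α 0 * t + γ 0) * (α 1 * t + γ 1) * (α 2 * t + γ 2) <
          (α 0 * t' + γ 0) * (α 1 * t' + γ 1) * (α 2 * t' + γ 2) :=
        Nat.mul_lt_mul_of_lt_of_le h1 (hl 2).le ((hp 2).trans (hl 2))
      exact absurd heq (Nat.mul_lt_mul_of_pos_left h2 hg0).ne
    intro t ht t' ht' heq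
    rcases lt_trichotomy t t' with h | h | h
    · exact absurd heq (key t ht t' ht' h)
    · exact h
    · exact absurd heq.symm (key t' ht' t ht h)
  refine ⟨S0.image f, ?_, ?_⟩
  · rw [card_image_of_injOn hinj]
    set z := 2 ^ (2 ^ J) with hz
    have hzN : z ^ 2048 ≤ N := by
      have : z ^ 2048 = 2 ^ (2 ^ (J + 11)) := by
        rw [hz, ← pow_mul, pow_add, show (2 : ℕ) ^ 11 = 2048 by norm_num]
      rw [this]
      exact hz1
    have hNpos : 0 < N := by omega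
    have h1 : N ^ 2047 ≤ S0.card ^ 2048 := by
      have h2 : N ^ 2048 ≤ S0.card ^ 2048 * N := by
        calc N ^ 2048 ≤ (S0.card * z) ^ 2048 := Nat.pow_le_pow_left hS0 _
          _ = S0.card ^ 2048 * z ^ 2048 := mul_pow _ _ _
          _ ≤ S0.card ^ 2048 * N := Nat.mul_le_mul_left _ hzN
      have h3 : N ^ 2048 = N ^ 2047 * N := pow_succ N 2047
      rw [h3] at h2
      exact Nat.le_of_mul_le_mul_right h2 hNpos
    have h4 : N ^ 99 ≤ S0.card ^ 100 := by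
      have h5 : (N ^ 99) ^ 2048 ≤ (S0.card ^ 100) ^ 2048 := by
        calc (N ^ 99) ^ 2048 = N ^ 202752 := by rw [← pow_mul]
          _ ≤ N ^ 204700 := Nat.pow_le_pow_right hNpos (by norm_num)
          _ = (N ^ 2047) ^ 100 := by rw [← pow_mul]
          _ ≤ (S0.card ^ 2048) ^ 100 := Nat.pow_le_pow_left h1 _
          _ = (S0.card ^ 100) ^ 2048 := by rw [← pow_mul, ← pow_mul]
      exact (Nat.pow_le_pow_iff_left (by norm_num)).1 h5
    have h6 : x ≤ 64 * M' ^ 10 * N ^ 3 := by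
      calc x ≤ 8 * M' ^ 10 * (N + 1) ^ 3 := hN2.le
        _ ≤ 8 * M' ^ 10 * (2 * N) ^ 3 := Nat.mul_le_mul_left _ (Nat.pow_le_pow_left (by omega) 3)
        _ = 64 * M' ^ 10 * N ^ 3 := by ring
    have h7 : x ^ 33 ≤ (64 ^ 33 * 210 ^ 330) * M ^ 330 * N ^ 99 := by
      calc x ^ 33 ≤ (64 * M' ^ 10 * N ^ 3) ^ 33 := Nat.pow_le_pow_left h6 33
        _ = (64 ^ 33 * 210 ^ 330) * M ^ 330 * N ^ 99 := by
          rw [hM']
          simp only [mul_pow, ← pow_mul]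
          ring
    refine h7.trans ?_
    refine Nat.mul_le_mul (Nat.mul_le_mul_right _ (Nat.le_add_left _ _)) h4
  · intro n hn
    obtain ⟨t, ht, rfl⟩ := mem_image.1 hn
    obtain ⟨htN, hsq, hbig, hom⟩ := hS t ht
    obtain ⟨f1, f2, f3⟩ := hfam t hsq
    have hdiv : f t / g = (α 0 * t + γ 0) * (α 1 * t + γ 1) * (α 2 * t + γ 2) := by
      rw [hf]
      exact Nat.mul_div_cancel_left _ hg0
    refine ⟨?_, f2, f1, f3, ?_, ?_⟩
    · have hb : ∀ v, α v * t + γ v ≤ α v * (2 * N) := by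
        intro v
        have h1 := hγ v
        have h2 : α v * t + 2 * α v = α v * (t + 2) := by ring
        have h3 : α v * (t + 2) ≤ α v * (2 * N) := Nat.mul_le_mul_left _ (by omega)
        omega
      have h1 : f t ≤ g * ((α 0 * (2 * N)) * (α 1 * (2 * N)) * (α 2 * (2 * N))) := by
        refine Nat.mul_le_mul_left _ ?_
        exact Nat.mul_le_mul (Nat.mul_le_mul (hb 0) (hb 1)) (hb 2)
      refine h1.trans ?_
      calc g * ((α 0 * (2 * N)) * (α 1 * (2 * N)) * (α 2 * (2 * N)))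
          = 8 * (g * (α 0 * α 1 * α 2)) * N ^ 3 := by ring
        _ ≤ 8 * M' ^ 10 * N ^ 3 := Nat.mul_le_mul_right _ (Nat.mul_le_mul_left _ hprod)
        _ ≤ x := hN1
    · rw [hdiv]
      have e0 : α 0 * t + γ 0 ≠ 0 := (hsq 0).ne_zero
      have e1 : α 1 * t + γ 1 ≠ 0 := (hsq 1).ne_zero
      have e2 : α 2 * t + γ 2 ≠ 0 := (hsq 2).ne_zero
      rw [Nat.primeFactors_mul (mul_ne_zero e0 e1) e2, Nat.primeFactors_mul e0 e1]
      have u1 := card_union_le ((α 0 * t + γ 0).primeFactors ∪ (α 1 * t + γ 1).primeFactors)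
        (α 2 * t + γ 2).primeFactors
      have u2 := card_union_le (α 0 * t + γ 0).primeFactors (α 1 * t + γ 1).primeFactors
      rw [Fin.sum_univ_three] at hom
      omega
    · intro q hq hqd
      rw [hdiv] at hqd
      have hqz : 2 ^ (2 ^ J) < q := by
        rcases (Nat.Prime.dvd_mul hq).1 hqd with h | h
        · rcases (Nat.Prime.dvd_mul hq).1 h with h | h
          · exact hbig 0 q hq h
          · exact hbig 1 q hq h
        · exact hbig 2 q hq h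
      have h6 : x ≤ N ^ 6 := by
        calc x ≤ 8 * M' ^ 10 * (N + 1) ^ 3 := hN2.le
          _ ≤ 8 * N ^ 2 * (2 * N) ^ 3 :=
            Nat.mul_le_mul (Nat.mul_le_mul_left _ hM'10) (Nat.pow_le_pow_left (by omega) 3)
          _ = 64 * N ^ 5 := by ring
          _ ≤ N * N ^ 5 := Nat.mul_le_mul_right _ (by
              have : 210 ^ 5 ≤ M' ^ 5 := Nat.pow_le_pow_left (by omega) 5
              omega)
          _ = N ^ 6 := by ring
      have h7 : N ≤ q ^ 4096 := by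
        have h8 : 2 ^ (2 ^ (J + (11 + 1))) = (2 ^ (2 ^ J)) ^ 4096 := by
          rw [← pow_mul, pow_add, show (2 : ℕ) ^ (11 + 1) = 4096 by norm_num]
        rw [h8] at hz2
        exact hz2.le.trans (Nat.pow_le_pow_left hqz.le _)
      calc x ≤ N ^ 6 := h6
        _ ≤ (q ^ 4096) ^ 6 := Nat.pow_le_pow_left h7 6
        _ = q ^ 24576 := by rw [← pow_mul]
        _ ≤ q ^ 25000 := Nat.pow_le_pow_right hq.pos (by norm_num)

end Pool.Agent.Work.MP_8efaaa_nt
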