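import Pool.Agent.Work.MP_8efaaa_nt.U.Quad

set_option autoImplicit false

open Finset

namespace Pool.Agent.Work.MP_8efaaa_nt

theorem root_param (k a : ℕ) (hk : 1 ≤ k) : ∃ N, N ^ k ≤ a ∧ a < (N + 1) ^ k := by
  classical
  set N := Nat.findGreatest (fun N => N ^ k ≤ a) a with hN
  refine ⟨N, ?_, ?_⟩
  · exact Nat.findGreatest_spec (P := fun N => N ^ k ≤ a) (m := 0) (Nat.zero_le _)
      (by rw [zero_pow (by omega)]; exact Nat.zero_le _)
  · by_contra hlt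
    push Not at hlt
    have h1 : N + 1 ≤ a := by
      refine le_trans ?_ hlt
      calc N + 1 = (N + 1) ^ 1 := (pow_one _).symm
        _ ≤ (N + 1) ^ k := Nat.pow_le_pow_right (by omega) hk
    have h2 := Nat.le_findGreatest (P := fun N => N ^ k ≤ a) h1 hlt
    rw [← hN] at h2
    omega

/-- Small `a`. -/
theorem quad_small (a0 : ℕ) : ∃ X : ℕ, ∀ a, Squarefree a → a < a0 → ∃ b, Squarefree b ∧
    b % 8 = 1 ∧ Nat.Coprime a b ∧ b ≤ X ∧ b.primeFactors.card ≤ 681 ∧ IsCongruent (a * b) := by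
  obtain ⟨C, hC⟩ := linnik
  refine ⟨C * (8 * a0) ^ 25 + 1, fun a ha haa => ?_⟩
  have ha0 : 0 < a := Nat.pos_of_ne_zero ha.ne_zero
  have hg : Nat.gcd a (8 * a) = a := Nat.gcd_eq_left (Dvd.intro_left _ rfl)
  obtain ⟨S, hS1, hS2⟩ := hC (8 * a) a (C * (8 * a) ^ 25 + 1) (by omega) (by rw [hg]; exact ha)
    (Nat.le_succ _)
  have hne : S.Nonempty := by
    rw [nonempty_iff_ne_empty]
    rintro rfl
    rw [card_empty, zero_pow (by norm_num), mul_zero] at hS1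
    have := Nat.pow_pos (n := 33) (Nat.succ_pos (C * (8 * a) ^ 25))
    exact absurd hS1 (by rw [Nat.succ_eq_add_one] at this; omega)
  obtain ⟨n, hn⟩ := hne
  obtain ⟨h1, h2, h3, h4, h5, -⟩ := hS2 n hn
  rw [hg] at h5
  have h6 : a ∣ n := by
    have h7 : n ≡ a [MOD a] := h2.of_dvd (Dvd.intro_left _ rfl)
    exact (Nat.modEq_zero_iff_dvd.1 (h7.trans (Nat.modEq_zero_iff_dvd.2 dvd_rfl)))
  obtain ⟨b, rfl⟩ := h6
  have h7 : a * b / a = b := Nat.mul_div_cancel_left _ ha0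
  rw [h7] at h5
  refine ⟨b, h3.of_mul_right, ?_, Nat.coprime_of_squarefree_mul h3, ?_, h5, h4⟩
  · have h8 : a * b ≡ a * 1 [MOD a * 8] := by
      rw [mul_one, mul_comm a 8]
      exact h2
    have h9 : b ≡ 1 [MOD 8] := Nat.ModEq.mul_left_cancel' ha0.ne' h8
    exact h9
  · calc b = 1 * b := (one_mul _).symm
      _ ≤ a * b := Nat.mul_le_mul_right _ ha0
      _ ≤ C * (8 * a) ^ 25 + 1 := h1
      _ ≤ C * (8 * a0) ^ 25 + 1 := by
        have := Nat.mul_le_mul_left C (Nat.pow_le_pow_left (show 8 * a ≤ 8 * a0 by omega) 25)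
        omega

theorem quad_nat (k : ℕ) (hk : 3 ≤ k) : ∃ C : ℕ, ∀ a, Squarefree a → ∃ b, Squarefree b ∧
    b % 8 = 1 ∧ Nat.Coprime a b ∧ b ^ (2 * k) ≤ C * a ^ (3 * k + 2) ∧
    b.primeFactors.card ≤ 8192 * k + 681 ∧ (∀ q, q.Prime → q ∣ b → a ≤ C * q ^ (4096 * k)) ∧
    IsCongruent (a * b) := by
  classical
  obtain ⟨J₀, hJ₀⟩ := quad_sieve
  obtain ⟨B, hB⟩ : ∃ B, B = 2 ^ (2 ^ (J₀ + 11)) := ⟨_, rfl⟩
  obtain ⟨a0, ha0⟩ : ∃ a0, a0 = (B + 705600) ^ k := ⟨_, rfl⟩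
  obtain ⟨X, hX⟩ := quad_small a0
  obtain ⟨C1, hC1⟩ : ∃ C1, C1 = 2520 ^ (2 * k) := ⟨_, rfl⟩
  obtain ⟨C2, hC2⟩ : ∃ C2, C2 = X ^ (2 * k) := ⟨_, rfl⟩
  refine ⟨C1 + C2 + a0 + 1, fun a ha => ?_⟩
  have hapos : 0 < a := Nat.pos_of_ne_zero ha.ne_zero
  rcases lt_or_ge a a0 with hlt | hge
  · obtain ⟨b, h1, h2, h3, h4, h5, h6⟩ := hX a ha hlt
    refine ⟨b, h1, h2, h3, ?_, by omega, ?_, h6⟩
    · calc b ^ (2 * k) ≤ X ^ (2 * k) := Nat.pow_le_pow_left h4 _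
        _ ≤ C1 + C2 + a0 + 1 := by omega
        _ = (C1 + C2 + a0 + 1) * 1 := (mul_one _).symm
        _ ≤ _ := Nat.mul_le_mul_left _ (Nat.one_le_pow _ _ hapos)
    · intro q hq _
      calc a ≤ C1 + C2 + a0 + 1 := by omega
        _ = (C1 + C2 + a0 + 1) * 1 := (mul_one _).symm
        _ ≤ _ := Nat.mul_le_mul_left _ (Nat.one_le_pow _ _ hq.pos)
  obtain ⟨N, hN1, hN2⟩ := root_param k a (by omega)
  have hNB : B + 705600 ≤ N := by
    by_contra h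
    push Not at h
    have h1 : (N + 1) ^ k ≤ a0 := by
      rw [ha0]
      exact Nat.pow_le_pow_left h k
    omega
  have hN3 : N ^ 3 ≤ a := (Nat.pow_le_pow_right (by omega) hk).trans hN1
  have hsq1 : 420 * (N + 1) ≤ Nat.sqrt a := by
    rw [Nat.le_sqrt]
    calc 420 * (N + 1) * (420 * (N + 1)) ≤ 840 * N * (840 * N) :=
          Nat.mul_le_mul (by omega) (by omega)
      _ = 705600 * N ^ 2 := by ring
      _ ≤ N * N ^ 2 := Nat.mul_le_mul_right _ (by omega)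
      _ = N ^ 3 := by ring
      _ ≤ a := hN3
  set K0 := Nat.sqrt a / 420 with hK0
  have hK1 : N + 1 ≤ K0 := (Nat.le_div_iff_mul_le (by norm_num)).2 (by omega)
  have hK2 : 420 * K0 ≤ Nat.sqrt a := Nat.mul_div_le _ _
  have hK3 : Nat.sqrt a < 420 * (K0 + 1) := Nat.lt_mul_div_succ _ (by norm_num)
  have hK4 : (420 * K0) ^ 2 ≤ a := by
    calc (420 * K0) ^ 2 ≤ (Nat.sqrt a) ^ 2 := Nat.pow_le_pow_left hK2 2
      _ ≤ a := Nat.sqrt_le' a
  have hK5 : a < (420 * (K0 + 1)) ^ 2 := by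
    calc a < (Nat.sqrt a + 1) ^ 2 := Nat.lt_succ_sqrt' a
      _ ≤ (420 * (K0 + 1)) ^ 2 := Nat.pow_le_pow_left hK3 2
  obtain ⟨J, hJ, hz1, hz2⟩ := scale J₀ 11 N (by omega)
  obtain ⟨i, hiN, hi⟩ := hJ₀ J hJ N hz1 (a : ℤ) (K0 : ℤ)
  obtain ⟨w, hw⟩ : ∃ w, K0 = w + i := ⟨K0 - i, by omega⟩
  set y := 420 * w with hy
  have hw0 : 0 < w := by omega
  have hy2 : y ^ 2 ≤ a := (Nat.pow_le_pow_left (by omega) 2).trans hK4
  have hya : y ^ 2 < a := by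
    refine lt_of_le_of_ne hy2 fun h => ?_
    have h1 := Nat.isUnit_iff.1 (ha y ⟨1, by rw [← h]; ring⟩)
    omega
  obtain ⟨b, s, hbs, hb⟩ := Nat.sq_mul_squarefree ((a - y ^ 2) * (a + y ^ 2))
  obtain ⟨hb8, hcop, hsmall, hcong⟩ :=
    quad_arith a y b s ha (Dvd.intro _ rfl) (by omega) hya hb hbs
  have hnpos : 0 < (a - y ^ 2) * (a + y ^ 2) := Nat.mul_pos (by omega) (by omega)
  have hb_le : b ≤ (a - y ^ 2) * (a + y ^ 2) :=
    Nat.le_of_dvd hnpos (by rw [← hbs]; exact Dvd.intro_left _ rfl)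
  have hbig : ∀ q, q.Prime → q ∣ b → 2 ^ (2 ^ J) < q := by
    intro q hq hqb
    refine hi q hq ?_ ?_
    · by_contra h
      exact hsmall q hq (by omega) hqb
    · have h1 : q ∣ (a - y ^ 2) * (a + y ^ 2) := by
        rw [← hbs]
        exact Dvd.dvd.mul_left hqb _
      have h2 : (q : ℤ) ∣ (((a - y ^ 2) * (a + y ^ 2) : ℕ) : ℤ) := by exact_mod_cast h1
      have h3 : (((a - y ^ 2) * (a + y ^ 2) : ℕ) : ℤ) = (a : ℤ) ^ 2 - (420 * ((K0 : ℤ) - i)) ^ 4 := by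
        rw [Nat.cast_mul, Nat.cast_sub hy2, hw, hy]
        push_cast
        ring
      rw [← h3]
      exact h2
  have hqa : ∀ q, q.Prime → q ∣ b → a ≤ q ^ (4096 * k) := by
    intro q hq hqb
    have h1 := hbig q hq hqb
    have h8 : 2 ^ (2 ^ (J + (11 + 1))) = (2 ^ (2 ^ J)) ^ 4096 := by
      rw [← pow_mul, pow_add, show (2 : ℕ) ^ (11 + 1) = 4096 by norm_num]
    rw [h8] at hz2
    calc a ≤ (N + 1) ^ k := hN2.le
      _ ≤ (q ^ 4096) ^ k :=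
        Nat.pow_le_pow_left ((Nat.succ_le_of_lt hz2).trans (Nat.pow_le_pow_left h1.le _)) k
      _ = q ^ (4096 * k) := by rw [← pow_mul]
  refine ⟨b, hb, hb8, hcop, ?_, ?_, ?_, hcong⟩
  · -- size
    have h1 : a - y ^ 2 ≤ 1260 * N * (420 * K0) := by
      have h2 : a < y ^ 2 + 176400 * ((i + 1) * (2 * w + i + 1)) := by
        calc a < (420 * (K0 + 1)) ^ 2 := hK5
          _ = y ^ 2 + 176400 * ((i + 1) * (2 * w + i + 1)) := by rw [hw, hy]; ring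
      have h3 : (i + 1) * (2 * w + i + 1) ≤ N * (3 * K0) := Nat.mul_le_mul (by omega) (by omega)
      have h4 : 1260 * N * (420 * K0) = 176400 * (N * (3 * K0)) := by ring
      omega
    have h2 : (a - y ^ 2) ^ 2 ≤ 1260 ^ 2 * N ^ 2 * a := by
      calc (a - y ^ 2) ^ 2 ≤ (1260 * N * (420 * K0)) ^ 2 := Nat.pow_le_pow_left h1 2
        _ = 1260 ^ 2 * N ^ 2 * (420 * K0) ^ 2 := by ring
        _ ≤ 1260 ^ 2 * N ^ 2 * a := Nat.mul_le_mul_left _ hK4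
    have h3 : b ^ 2 ≤ 2520 ^ 2 * N ^ 2 * a ^ 3 := by
      calc b ^ 2 ≤ ((a - y ^ 2) * (a + y ^ 2)) ^ 2 := Nat.pow_le_pow_left hb_le 2
        _ = (a - y ^ 2) ^ 2 * (a + y ^ 2) ^ 2 := mul_pow _ _ _
        _ ≤ (1260 ^ 2 * N ^ 2 * a) * (2 * a) ^ 2 :=
          Nat.mul_le_mul h2 (Nat.pow_le_pow_left (by omega) 2)
        _ = 2520 ^ 2 * N ^ 2 * a ^ 3 := by ring
    calc b ^ (2 * k) = (b ^ 2) ^ k := pow_mul _ _ _
      _ ≤ (2520 ^ 2 * N ^ 2 * a ^ 3) ^ k := Nat.pow_le_pow_left h3 k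
      _ = 2520 ^ (2 * k) * ((N ^ k) ^ 2 * a ^ (3 * k)) := by
        rw [mul_pow, mul_pow, ← pow_mul, ← pow_mul, ← pow_mul, ← pow_mul, mul_comm k 2]
        ring
      _ ≤ 2520 ^ (2 * k) * (a ^ 2 * a ^ (3 * k)) :=
        Nat.mul_le_mul_left _ (Nat.mul_le_mul_right _ (Nat.pow_le_pow_left hN1 2))
      _ = C1 * a ^ (3 * k + 2) := by rw [← pow_add, add_comm 2, hC1]
      _ ≤ _ := Nat.mul_le_mul_right _ (by omega)
  · -- number of primes
    have ha2 : 2 ≤ a := by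
      have : 1 ≤ y ^ 2 := Nat.one_le_pow _ _ (by omega)
      omega
    have h1 : a ^ b.primeFactors.card ≤ (∏ q ∈ b.primeFactors, q) ^ (4096 * k) := by
      rw [← prod_const, ← prod_pow]
      exact prod_le_prod' fun q hq => hqa q (Nat.prime_of_mem_primeFactors hq)
        (Nat.dvd_of_mem_primeFactors hq)
    have h2 : ∏ q ∈ b.primeFactors, q ≤ b :=
      Nat.le_of_dvd (Nat.pos_of_ne_zero hb.ne_zero) (Nat.prod_primeFactors_dvd b)
    have h3 : b ≤ a ^ 2 := by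
      refine hb_le.trans ?_
      rw [mul_comm, ← Nat.sq_sub_sq]
      exact Nat.sub_le _ _
    have h4 : a ^ b.primeFactors.card ≤ a ^ (8192 * k) := by
      calc a ^ b.primeFactors.card ≤ (∏ q ∈ b.primeFactors, q) ^ (4096 * k) := h1
        _ ≤ (a ^ 2) ^ (4096 * k) := Nat.pow_le_pow_left (h2.trans h3) _
        _ = a ^ (8192 * k) := by rw [← pow_mul]; congr 1; ring
    have h5 := (Nat.pow_le_pow_iff_right (by omega : 1 < a)).1 h4
    omega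
  · intro q hq hqb
    calc a ≤ q ^ (4096 * k) := hqa q hq hqb
      _ = 1 * q ^ (4096 * k) := (one_mul _).symm
      _ ≤ _ := Nat.mul_le_mul_right _ (by omega)

end Pool.Agent.Work.MP_8efaaa_nt
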