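import Pool.Agent.Work.MP_8efaaa_nt.U.QMain

set_option autoImplicit false

open Finset

namespace Pool.Agent.Work.MP_8efaaa_nt

theorem quad_real (ε : ℝ) (hε : 0 < ε) (hε1 : ε ≤ 1) : ∃ K : ℝ, ∀ a : ℕ, Squarefree a →
    ∃ b : ℕ, Squarefree b ∧ b % 8 = 1 ∧ Nat.Coprime a b ∧ (b : ℝ) ≤ K * (a : ℝ) ^ (3 / 2 + ε) ∧
      (b.primeFactors.card : ℝ) ≤ 40000 / ε ∧
      (∀ q : ℕ, q.Prime → q ∣ b → (a : ℝ) ≤ K * (q : ℝ) ^ (20000 / ε)) ∧ IsCongruent (a * b) := by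
  set k : ℕ := ⌈1 / ε⌉₊ + 2 with hk
  have hinv : 1 ≤ 1 / ε := by rw [le_div_iff₀ hε]; linarith
  have h1 : (1 : ℝ) / ε ≤ ⌈1 / ε⌉₊ := Nat.le_ceil _
  have h2 : (⌈1 / ε⌉₊ : ℝ) < 1 / ε + 1 := Nat.ceil_lt_add_one (by positivity)
  have hk3 : 3 ≤ k := by
    have : (1 : ℝ) ≤ (⌈1 / ε⌉₊ : ℝ) := hinv.trans h1
    have : 1 ≤ ⌈1 / ε⌉₊ := by exact_mod_cast this
    omega
  have hkR : (k : ℝ) = (⌈1 / ε⌉₊ : ℝ) + 2 := by rw [hk]; push_cast; ring
  have hk4 : (k : ℝ) ≤ 4 / ε := by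
    have : (4 : ℝ) / ε = 4 * (1 / ε) := by ring
    rw [hkR, this]
    linarith
  have hk5 : (1 : ℝ) / k ≤ ε := by
    have hkpos : (0 : ℝ) < k := by
      have : 0 < k := by omega
      exact_mod_cast this
    rw [div_le_iff₀ hkpos, ← div_le_iff₀' hε, hkR]
    linarith
  obtain ⟨C, hC⟩ := quad_nat k hk3
  refine ⟨(C : ℝ) + 1, fun a ha => ?_⟩
  obtain ⟨b, hb, hb8, hcop, hsize, hom, hq, hcong⟩ := hC a ha
  have ha0 : 0 < a := Nat.pos_of_ne_zero ha.ne_zero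
  have ha1 : (1 : ℝ) ≤ a := by exact_mod_cast ha0
  have hkpos : (0 : ℝ) < k := by
    have : 0 < k := by omega
    exact_mod_cast this
  refine ⟨b, hb, hb8, hcop, ?_, ?_, ?_, hcong⟩
  · have h3 : (b : ℝ) ^ (2 * k) ≤ ((C : ℝ) + 1) * (a : ℝ) ^ (3 * k + 2) := by
      have h4 : (b : ℝ) ^ (2 * k) ≤ (C : ℝ) * (a : ℝ) ^ (3 * k + 2) := by exact_mod_cast hsize
      have h5 : (0 : ℝ) ≤ (a : ℝ) ^ (3 * k + 2) := by positivity
      linarith
    have h4 : (b : ℝ) = ((b : ℝ) ^ (2 * k)) ^ (((2 * k : ℕ) : ℝ)⁻¹) :=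
      (Real.pow_rpow_inv_natCast (by positivity) (by omega)).symm
    rw [h4]
    refine (Real.rpow_le_rpow (by positivity) h3 (by positivity)).trans ?_
    rw [Real.mul_rpow (by positivity) (by positivity)]
    refine mul_le_mul ?_ ?_ (by positivity) (by positivity)
    · have h5 : (((2 * k : ℕ) : ℝ)⁻¹) ≤ 1 := by
        apply inv_le_one_of_one_le₀
        have : 1 ≤ 2 * k := by omega
        exact_mod_cast this
      calc ((C : ℝ) + 1) ^ (((2 * k : ℕ) : ℝ)⁻¹) ≤ ((C : ℝ) + 1) ^ (1 : ℝ) :=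
            Real.rpow_le_rpow_of_exponent_le (by
              have : (0 : ℝ) ≤ C := by positivity
              linarith) h5
        _ = (C : ℝ) + 1 := Real.rpow_one _
    · rw [← Real.rpow_natCast_mul (by positivity)]
      refine Real.rpow_le_rpow_of_exponent_le ha1 ?_
      have h5 : (((3 * k + 2 : ℕ) : ℝ)) * (((2 * k : ℕ) : ℝ)⁻¹) = 3 / 2 + 1 / k := by
        push_cast
        field_simp
      rw [h5]
      linarith
  · have h3 : (b.primeFactors.card : ℝ) ≤ 8192 * k + 681 := by exact_mod_cast hom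
    have h4 : (681 : ℝ) ≤ 681 / ε := by
      rw [le_div_iff₀ hε]
      nlinarith
    have h5 : (8192 : ℝ) * k ≤ 8192 * (4 / ε) := by linarith
    have h6 : (8192 : ℝ) * (4 / ε) + 681 / ε ≤ 40000 / ε := by
      rw [← mul_div_assoc, ← add_div]
      exact div_le_div_of_nonneg_right (by norm_num) hε.le
    linarith
  · intro q hqp hqb
    have h3 : (a : ℝ) ≤ (C : ℝ) * (q : ℝ) ^ (4096 * k) := by exact_mod_cast hq q hqp hqb
    have hq1 : (1 : ℝ) ≤ q := by exact_mod_cast hqp.one_le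
    have h4 : (q : ℝ) ^ (4096 * k) ≤ (q : ℝ) ^ (20000 / ε) := by
      rw [← Real.rpow_natCast]
      refine Real.rpow_le_rpow_of_exponent_le hq1 ?_
      push_cast
      have h5 : (4096 : ℝ) * k ≤ 4096 * (4 / ε) := by linarith
      have h6 : (4096 : ℝ) * (4 / ε) ≤ 20000 / ε := by
        rw [← mul_div_assoc]
        exact div_le_div_of_nonneg_right (by norm_num) hε.le
      linarith
    have h5 : (0 : ℝ) ≤ (q : ℝ) ^ (20000 / ε) := by positivity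
    have h6 : (C : ℝ) * (q : ℝ) ^ (4096 * k) ≤ (C : ℝ) * (q : ℝ) ^ (20000 / ε) :=
      mul_le_mul_of_nonneg_left h4 (by positivity)
    linarith

end Pool.Agent.Work.MP_8efaaa_nt
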