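import Pool.Agent.Work.MP_8efaaa_nt.U.Main
import Pool.Agent.Work.MP_8efaaa_nt.Basic

set_option autoImplicit false

open Finset

namespace Pool.Agent.Work.MP_8efaaa_nt

/-- For a prime `p ≥ 8` at most four residues `i` satisfy `p ∣ a ^ 2 - (420 (K - i)) ^ 4`. -/
theorem four_classes (p : ℕ) (hp : p.Prime) (h8 : 8 ≤ p) (a K : ℤ) :
    ((range p).filter (fun i : ℕ => (p : ℤ) ∣ a ^ 2 - (420 * (K - (i : ℤ))) ^ 4)).card ≤ 4 := by
  classical
  haveI := Fact.mk hp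
  have h420 : ((420 : ℤ) : ZMod p) ≠ 0 := by
    intro h
    rw [ZMod.intCast_zmod_eq_zero_iff_dvd] at h
    have h1 : p ∣ 420 := by exact_mod_cast h
    have h2 : p ∣ 2 ^ 2 * 3 * 5 * 7 := by simpa using h1
    have hle : ∀ q, q.Prime → q < 8 → ¬ p ∣ q := fun q hq hq8 h => by
      have := (Nat.prime_dvd_prime_iff_eq hp hq).1 h
      omega
    rcases (Nat.Prime.dvd_mul hp).1 h2 with h | h
    · rcases (Nat.Prime.dvd_mul hp).1 h with h | h
      · rcases (Nat.Prime.dvd_mul hp).1 h with h | h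
        · exact hle 2 Nat.prime_two (by norm_num) (hp.dvd_of_dvd_pow h)
        · exact hle 3 Nat.prime_three (by norm_num) h
      · exact hle 5 Nat.prime_five (by norm_num) h
    · exact hle 7 (by norm_num) (by norm_num) h
  set f : ℕ → ZMod p := fun i => ((420 * (K - (i : ℤ)) : ℤ) : ZMod p) with hf
  have hmaps : ∀ i ∈ (range p).filter (fun i : ℕ => (p : ℤ) ∣ a ^ 2 - (420 * (K - (i : ℤ))) ^ 4),
      f i ∈ (Polynomial.nthRoots 4 ((a : ZMod p) ^ 2)).toFinset := by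
    intro i hi
    obtain ⟨-, h2⟩ := mem_filter.1 hi
    rw [Multiset.mem_toFinset, Polynomial.mem_nthRoots (by norm_num)]
    have h3 := (ZMod.intCast_zmod_eq_zero_iff_dvd _ p).2 h2
    rw [Int.cast_sub, sub_eq_zero] at h3
    rw [hf]
    push_cast at h3 ⊢
    exact h3.symm
  have hinj : Set.InjOn f ((range p).filter
      (fun i : ℕ => (p : ℤ) ∣ a ^ 2 - (420 * (K - (i : ℤ))) ^ 4) : Finset ℕ) := by
    intro i hi i' hi' h
    have hi1 := mem_range.1 (mem_filter.1 hi).1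
    have hi2 := mem_range.1 (mem_filter.1 hi').1
    rw [hf] at h
    simp only [Int.cast_mul] at h
    have h1 := mul_left_cancel₀ h420 h
    push_cast at h1
    have h2 : (i : ZMod p) = (i' : ZMod p) := sub_right_injective h1
    rw [ZMod.natCast_eq_natCast_iff'] at h2
    rwa [Nat.mod_eq_of_lt hi1, Nat.mod_eq_of_lt hi2] at h2
  refine (card_le_card_of_injOn f hmaps hinj).trans ?_
  exact (Multiset.toFinset_card_le _).trans (Polynomial.card_nthRoots 4 _)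

/-- The sieve: some `i < N` for which `a ^ 2 - (420 (K - i)) ^ 4` has no prime factor in
`[8, 2 ^ 2 ^ J]`. -/
theorem quad_sieve : ∃ J₀ : ℕ, ∀ J ≥ J₀, ∀ N : ℕ, 2 ^ (2 ^ (J + 11)) ≤ N → ∀ a K : ℤ,
    ∃ i < N, ∀ p : ℕ, p.Prime → 8 ≤ p → (p : ℤ) ∣ a ^ 2 - (420 * (K - (i : ℤ))) ^ 4 →
      2 ^ (2 ^ J) < p := by
  classical
  obtain ⟨J₀, hJ₀⟩ := bh 4 11 (by norm_num) (by norm_num) (by norm_num)
  refine ⟨J₀, fun J hJ N hN a K => ?_⟩
  set P : ℕ → Finset ℕ := fun j =>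
    (Ioc (2 ^ (2 ^ (j - 1))) (2 ^ (2 ^ j))).filter (fun p => p.Prime ∧ 8 ≤ p) with hP
  set A : ℕ → Finset ℕ := fun p => if p.Prime ∧ 8 ≤ p then
    (range p).filter (fun i : ℕ => (p : ℤ) ∣ a ^ 2 - (420 * (K - (i : ℤ))) ^ 4) else ∅ with hA
  obtain ⟨Y, hY1, hY2, -⟩ := hJ₀ J hJ N hN P (by
      intro j _ p hp
      simp only [hP, mem_filter, mem_Ioc] at hp
      exact ⟨hp.2.1, hp.1.1, hp.1.2, by omega⟩) A (by
      intro p
      simp only [hA]
      split_ifs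
      · exact filter_subset _ _
      · exact empty_subset _) (by
      intro p
      simp only [hA]
      split_ifs with h
      · exact four_classes p h.1 h.2 a K
      · simp)
  have hY0 : 0 < Y := lt_of_lt_of_le (by positivity) hY1
  have hN0 : 0 < N := lt_of_lt_of_le (by positivity) hN
  have hcard : 0 < ((range N).filter
      (fun m => ∀ j ∈ Icc 1 J, ∀ p ∈ P j, m % p ∉ A p)).card := by
    have h1 : (0 : ℝ) < Y / 2 * N := by
      have : (0 : ℝ) < N := by exact_mod_cast hN0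
      positivity
    exact_mod_cast h1.trans_le hY2
  obtain ⟨i, hi⟩ := card_pos.1 hcard
  obtain ⟨hi1, hi2⟩ := mem_filter.1 hi
  refine ⟨i, mem_range.1 hi1, fun p hp hp8 hdvd => ?_⟩
  by_contra hle
  push Not at hle
  have hex : ∃ j, p ≤ 2 ^ (2 ^ j) := ⟨J, hle⟩
  set j := Nat.find hex with hj
  have hj1 : p ≤ 2 ^ (2 ^ j) := Nat.find_spec hex
  have hjJ : j ≤ J := Nat.find_min' hex hle
  have hj0 : 1 ≤ j := by
    rcases Nat.eq_zero_or_pos j with h | h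
    · rw [h] at hj1
      norm_num at hj1
      omega
    · exact h
  have hj2 : ¬ p ≤ 2 ^ (2 ^ (j - 1)) := Nat.find_min hex (by omega)
  have hqP : p ∈ P j := by
    simp only [hP, mem_filter, mem_Ioc]
    exact ⟨⟨by omega, hj1⟩, hp, hp8⟩
  apply hi2 j (mem_Icc.2 ⟨hj0, hjJ⟩) p hqP
  simp only [hA]
  rw [if_pos ⟨hp, hp8⟩, mem_filter, mem_range]
  refine ⟨Nat.mod_lt _ hp.pos, ?_⟩
  have h1 : ((i % p : ℕ) : ℤ) ≡ (i : ℤ) [ZMOD p] := by
    rw [Int.natCast_mod]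
    exact Int.mod_modEq _ _
  have h2 : a ^ 2 - (420 * (K - ((i % p : ℕ) : ℤ))) ^ 4 ≡ a ^ 2 - (420 * (K - (i : ℤ))) ^ 4 [ZMOD p] :=
    Int.ModEq.sub_left _ (Int.ModEq.pow 4 (Int.ModEq.mul_left _ (Int.ModEq.sub_left _ h1)))
  exact (Int.modEq_zero_iff_dvd.1 (h2.trans (Int.modEq_zero_iff_dvd.2 hdvd)))

/-- Arithmetic of the squarefree part `b` of `a ^ 2 - y ^ 4` for `420 ∣ y`. -/
theorem quad_arith (a y b s : ℕ) (ha : Squarefree a) (hy : 420 ∣ y) (hy0 : 0 < y) (hya : y ^ 2 < a)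
    (hb : Squarefree b) (h : s ^ 2 * b = (a - y ^ 2) * (a + y ^ 2)) :
    b % 8 = 1 ∧ Nat.Coprime a b ∧ (∀ p, p.Prime → p < 8 → ¬ p ∣ b) ∧ IsCongruent (a * b) := by
  have ha0 : 0 < a := by omega
  have hyle : y ^ 2 ≤ a := hya.le
  have hpos : 0 < (a - y ^ 2) * (a + y ^ 2) := Nat.mul_pos (by omega) (by omega)
  have hb0 : 0 < b := Nat.pos_of_ne_zero hb.ne_zero
  have hs0 : 0 < s := by
    rcases Nat.eq_zero_or_pos s with h0 | h0
    · rw [h0] at h
      omega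
    · exact h0
  have hZ : (s : ℤ) ^ 2 * b = (a : ℤ) ^ 2 - (y : ℤ) ^ 4 := by
    have h1 : ((s ^ 2 * b : ℕ) : ℤ) = (((a - y ^ 2) * (a + y ^ 2) : ℕ) : ℤ) := by rw [h]
    push_cast [Nat.cast_sub hyle] at h1
    rw [h1]
    ring
  -- primes of a
  have hcop1 : ∀ p, p.Prime → p ∣ a → ¬ p ∣ b := by
    intro p hp hpa hpb
    obtain ⟨b1, rfl⟩ := hpb
    obtain ⟨a1, rfl⟩ := hpa
    have hpa1 : ¬ p ∣ a1 := by
      rintro ⟨c, rfl⟩
      exact hp.one_lt.ne' (Nat.isUnit_iff.1 (ha p ⟨c, by ring⟩))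
    have hpb1 : ¬ p ∣ b1 := by
      rintro ⟨c, rfl⟩
      exact hp.one_lt.ne' (Nat.isUnit_iff.1 (hb p ⟨c, by ring⟩))
    have hpZ : Prime (p : ℤ) := Nat.prime_iff_prime_int.1 hp
    have hpy : (p : ℤ) ∣ (y : ℤ) := by
      have h1 : (p : ℤ) ∣ (y : ℤ) ^ 4 := by
        have h2 : (y : ℤ) ^ 4 = (p : ℤ) * (p * a1 ^ 2 - s ^ 2 * b1) := by
          push_cast at hZ
          linear_combination hZ
        rw [h2]
        exact Dvd.intro _ rfl
      exact hpZ.dvd_of_dvd_pow h1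
    obtain ⟨y1, rfl⟩ : p ∣ y := by exact_mod_cast hpy
    push_cast at hZ
    have hp0 : (p : ℤ) ≠ 0 := hpZ.ne_zero
    have h3 : (s : ℤ) ^ 2 * b1 = p * (a1 ^ 2 - p ^ 2 * y1 ^ 4) := by
      apply mul_left_cancel₀ hp0
      linear_combination hZ
    have h4 : (p : ℤ) ∣ (s : ℤ) ^ 2 * b1 := by
      rw [h3]
      exact Dvd.intro _ rfl
    have h5 : (p : ℤ) ∣ s := by
      rcases hpZ.dvd_or_dvd h4 with h | h
      · exact hpZ.dvd_of_dvd_pow h
      · exact absurd (by exact_mod_cast h) hpb1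
    obtain ⟨s1, hs1⟩ := h5
    rw [hs1] at h3
    have h6 : (p : ℤ) * (s1 ^ 2 * b1) = a1 ^ 2 - p ^ 2 * y1 ^ 4 := by
      apply mul_left_cancel₀ hp0
      linear_combination h3
    have h7 : (p : ℤ) ∣ (a1 : ℤ) ^ 2 := by
      have h8 : (a1 : ℤ) ^ 2 = p * (s1 ^ 2 * b1 + p * y1 ^ 4) := by linear_combination -h6
      rw [h8]
      exact Dvd.intro _ rfl
    have h8 := hpZ.dvd_of_dvd_pow h7
    exact hpa1 (by exact_mod_cast h8)
  have hsmall : ∀ p, p.Prime → p < 8 → ¬ p ∣ b := by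
    intro p hp hp8 hpb
    by_cases hpa : p ∣ a
    · exact hcop1 p hp hpa hpb
    · have hp420 : p ∣ 420 := by
        interval_cases p <;> first | decide | (exfalso; revert hp; decide)
      have hpy : p ∣ y := hp420.trans hy
      have hpZ : Prime (p : ℤ) := Nat.prime_iff_prime_int.1 hp
      have h1 : (p : ℤ) ∣ (a : ℤ) ^ 2 := by
        have h2 : (a : ℤ) ^ 2 = s ^ 2 * b + y ^ 4 := by linear_combination -hZ
        rw [h2]
        refine dvd_add (Dvd.dvd.mul_left (by exact_mod_cast hpb) _) ?_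
        exact Dvd.dvd.pow (by exact_mod_cast hpy) (by norm_num)
      have h2 := hpZ.dvd_of_dvd_pow h1
      exact hpa (by exact_mod_cast h2)
  have hcop : Nat.Coprime a b := by
    rw [Nat.coprime_iff_gcd_eq_one] 
    by_contra hne
    obtain ⟨p, hp, hpd⟩ := Nat.exists_prime_and_dvd hne
    exact hcop1 p hp (hpd.trans (Nat.gcd_dvd_left _ _)) (hpd.trans (Nat.gcd_dvd_right _ _))
  have hb2 : ¬ 2 ∣ b := hsmall 2 Nat.prime_two (by norm_num)
  obtain ⟨y4, rfl⟩ : 4 ∣ y := (by norm_num : 4 ∣ 420).trans hy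
  have hodd8 : ∀ x : ℤ, x % 2 = 1 → x ^ 2 % 8 = 1 := by
    intro x hx
    have h1 : x % 8 = 1 ∨ x % 8 = 3 ∨ x % 8 = 5 ∨ x % 8 = 7 := by omega
    rcases h1 with h | h | h | h <;> simp [pow_two, Int.mul_emod, h]
  have hb8 : (b : ℤ) % 8 = 1 := by
    by_cases h2a : 2 ∣ a
    · obtain ⟨a', rfl⟩ := h2a
      have ha' : ¬ 2 ∣ a' := by
        rintro ⟨c, rfl⟩
        have := Nat.isUnit_iff.1 (ha 2 ⟨c, by ring⟩)
        omega
      have h2s : (2 : ℤ) ∣ s := by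
        have h1 : (2 : ℤ) ∣ (s : ℤ) ^ 2 * b := by
          rw [hZ]
          push_cast
          exact ⟨2 * a' ^ 2 - 128 * y4 ^ 4, by ring⟩
        rcases Int.prime_two.dvd_or_dvd h1 with h | h
        · exact Int.prime_two.dvd_of_dvd_pow h
        · exact absurd (by exact_mod_cast h) hb2
      obtain ⟨s', hs'⟩ := h2s
      rw [hs'] at hZ
      push_cast at hZ
      have h3 : s' ^ 2 * b = (a' : ℤ) ^ 2 - 64 * y4 ^ 4 := by
        have : (4 : ℤ) * (s' ^ 2 * b) = 4 * ((a' : ℤ) ^ 2 - 64 * y4 ^ 4) := by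
          linear_combination hZ
        exact mul_left_cancel₀ (by norm_num) this
      have h4 : (a' : ℤ) ^ 2 % 8 = 1 := hodd8 _ (by omega)
      have h5 : (s' ^ 2 * b) % 8 = 1 := by
        rw [h3]
        omega
      have h6 : s' % 2 = 1 := by
        by_contra hne
        have h7 : (2 : ℤ) ∣ s' := by omega
        obtain ⟨c, rfl⟩ := h7
        have h8 : ((2 * c) ^ 2 * (b : ℤ)) % 2 = 0 := by
          rw [show (2 * c) ^ 2 * (b : ℤ) = 2 * (2 * c ^ 2 * b) by ring]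
          omega
        omega
      have h7 := hodd8 s' h6
      rw [Int.mul_emod, h7] at h5
      omega
    · have h4 : (a : ℤ) ^ 2 % 8 = 1 := hodd8 _ (by omega)
      have h5 : ((s : ℤ) ^ 2 * b) % 8 = 1 := by
        rw [hZ]
        push_cast
        rw [show (a : ℤ) ^ 2 - (4 * (y4 : ℤ)) ^ 4 = a ^ 2 - 8 * (32 * y4 ^ 4) by ring]
        omega
      have h6 : (s : ℤ) % 2 = 1 := by
        by_contra hne
        have h7 : (2 : ℤ) ∣ s := by omega
        obtain ⟨c, hc⟩ := h7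
        rw [hc] at h5
        have h8 : ((2 * c) ^ 2 * (b : ℤ)) % 2 = 0 := by
          rw [show (2 * c) ^ 2 * (b : ℤ) = 2 * (2 * c ^ 2 * b) by ring]
          omega
        omega
      have h7 := hodd8 s h6
      rw [Int.mul_emod, h7] at h5
      omega
  refine ⟨by omega, hcop, hsmall, ?_⟩
  refine isCongruent_of_area (m := (a : ℤ)) (n := ((4 * y4 : ℕ) : ℤ) ^ 2)
    (w := ((4 * y4 : ℕ) : ℤ) * s) (Nat.mul_pos ha0 hb0) ?_ ?_
  · have h1 : (4 * y4 : ℕ) ≠ 0 := by omega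
    exact mul_ne_zero (by exact_mod_cast h1) (by exact_mod_cast hs0.ne')
  · have h9 : ((a * b : ℕ) : ℤ) = (a : ℤ) * b := Nat.cast_mul _ _
    rw [h9]
    generalize ((4 * y4 : ℕ) : ℤ) = Y at hZ ⊢
    linear_combination (-(a : ℤ) * Y ^ 2) * hZ

end Pool.Agent.Work.MP_8efaaa_nt
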